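import Mathlib
import Pool.Graph.R_seed8.Helper413.Quad.Hom
import Pool.Graph.R_seed8.Helper413.Split.Alg

open MvPolynomial

universe u

namespace Pool.Agent.H880.Unexp

open Pool.Agent.Helper413 Pool.Agent.Helper413.Split

section Gen

variable {R : Type*} [CommRing R]

/-- `p = xy + yz + zx`, `z = - x - y` -/
def fp (v : Fin 3 → R) : R := -(v 0 ^ 2 + v 0 * v 1 + v 1 ^ 2)
def fz (v : Fin 3 → R) : R := -(v 0) - v 1
def fq (v : Fin 3 → R) : R := v 0 * v 1 * fz v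
def fW (v : Fin 3 → R) : R := v 2 ^ 2
def fd (v : Fin 3 → R) : R := (v 0 - v 1) * (v 1 - fz v) * (fz v - v 0)
def fL (ω : R) (v : Fin 3 → R) : R := 2 * fW v - ω ^ 2 * fp v
def fT (ω : R) (v : Fin 3 → R) : R := fp v * fL ω v * fd v
def fA (ω : R) (v : Fin 3 → R) : R :=
  fp v * fL ω v * (fp v + 3 * fW v) * (4 * fp v + 3 * fW v) +
    3 * (3 * fW v - 5 * ω ^ 2 * fp v) * (fq v ^ 2 - fW v * (fW v + fp v) ^ 2)

/-- the derivation of degree `9` -/
def th (ω : R) (v : Fin 3 → R) : Fin 3 → R :=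
  ![v 0 * fT ω v * (v 1 - fz v), v 1 * fT ω v * (fz v - v 0), v 2 * fA ω v]

/-- `t × θ(t)` -/
def mm (ω : R) (v : Fin 3 → R) : Fin 3 → R :=
  ![v 2 * v 1 * (fA ω v - fT ω v * (fz v - v 0)), v 2 * v 0 * (fT ω v * (v 1 - fz v) - fA ω v),
    3 * fT ω v * fq v]

lemma mm_eq (ω : R) (v : Fin 3 → R) : mm ω v = cr v (th ω v) := by
  funext j
  fin_cases j
  · simp [mm, cr, th]
    ring
  · simp [mm, cr, th]
    ring
  · simp [mm, cr, th, fq, fz]
    ring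

/-- the points -/
def zv (ω h : R) : Fin 21 → Fin 3 → R :=
  ![![1, 0, 0], ![0, 1, 0], ![1, 1, 0], ![1, -1, 0], ![1, 2, 0], ![1, h, 0], ![1, -ω, 0],
    ![1, 1 + ω, 0], ![0, 0, 1],
    ![1, 0, -1], ![1, 0, 1], ![1, 0, -ω], ![1, 0, ω],
    ![0, 1, -1], ![0, 1, 1], ![0, 1, -ω], ![0, 1, ω],
    ![1, 1, -1], ![1, 1, 1], ![1, 1, -ω], ![1, 1, ω]]

/-- dot product -/
def dot (a b : Fin 3 → R) : R := a 0 * b 0 + a 1 * b 1 + a 2 * b 2

lemma dot_sum (a b : Fin 3 → R) : dot a b = ∑ j, a j * b j := by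
  rw [Fin.sum_univ_three, dot]

variable {R' : Type*} [CommRing R']

lemma map_th (f : R →+* R') (ω : R) (v : Fin 3 → R) (j : Fin 3) :
    f (th ω v j) = th (f ω) (fun i => f (v i)) j := by
  fin_cases j <;> simp [th, fT, fA, fp, fz, fq, fW, fd, fL, map_ofNat]

lemma map_mm (f : R →+* R') (ω : R) (v : Fin 3 → R) (j : Fin 3) :
    f (mm ω v j) = mm (f ω) (fun i => f (v i)) j := by
  fin_cases j <;> simp [mm, fT, fA, fp, fz, fq, fW, fd, fL, map_ofNat]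

lemma map_cr (f : R →+* R') (a b : Fin 3 → R) (j : Fin 3) :
    f (cr a b j) = cr (fun i => f (a i)) (fun i => f (b i)) j := by
  fin_cases j <;> simp [cr]

lemma th_smul (ω s : R) (v : Fin 3 → R) (j : Fin 3) :
    th ω (fun i => v i * s) j = th ω v j * s ^ 9 := by
  fin_cases j <;> simp [th, fT, fA, fp, fz, fq, fW, fd, fL] <;> ring

lemma mm_smul (ω s : R) (v : Fin 3 → R) (j : Fin 3) :
    mm ω (fun i => v i * s) j = mm ω v j * s ^ 10 := by
  fin_cases j <;> simp [mm, fT, fA, fp, fz, fq, fW, fd, fL] <;> ring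

end Gen

end Pool.Agent.H880.Unexp
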