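import Mathlib
import Pool.Agent.H880.Unexp.Theta

open MvPolynomial

namespace Pool.Agent.H880.Unexp

open Pool.Agent.Helper413 Pool.Agent.Helper413.Split

section A


variable {R : Type*} [CommRing R]

omit [CommRing R] in
lemma vec3 (t : Fin 3 → R) : t = ![t 0, t 1, t 2] := by
  funext j
  fin_cases j <;> rfl

lemma inv_line (ω h : R) (hw : ω^2+ω+1=0) (hh : 2 * h = 1) (i : Fin 21) (t : Fin 3 → R)
    (ht : dot (zv ω h i) t = 0) : dot (zv ω h i) (th ω t) = 0 := by
  obtain ⟨x, y, w, rfl⟩ : ∃ x y w, t = ![x, y, w] := ⟨_, _, _, vec3 t⟩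
  fin_cases i
  · obtain rfl : x = 0 := by simpa [dot, zv] using ht
    simp [dot, zv, th]
  · obtain rfl : y = 0 := by simpa [dot, zv] using ht
    simp [dot, zv, th]
  · obtain rfl : x = -y := by
      simp [dot, zv] at ht
      linear_combination ht
    simp [dot, zv, th, fT, fA, fp, fz, fq, fW, fd, fL]
  · obtain rfl : x = y := by
      simp [dot, zv] at ht
      linear_combination ht
    simp [dot, zv, th, fT, fA, fp, fz, fq, fW, fd, fL]
  · obtain rfl : x = -(2 * y) := by
      simp [dot, zv] at ht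
      linear_combination ht
    simp [dot, zv, th, fT, fA, fp, fz, fq, fW, fd, fL]
    grind
  · obtain rfl : y = -(2 * x) := by
      simp [dot, zv] at ht
      linear_combination 2 * ht - y * hh
    simp [dot, zv, th, fT, fA, fp, fz, fq, fW, fd, fL]
    grind
  · obtain rfl : x = ω * y := by
      simp [dot, zv] at ht
      linear_combination ht
    simp [dot, zv, th, fT, fA, fp, fz, fq, fW, fd, fL]
    grind
  · obtain rfl : x = -((1 + ω) * y) := by
      simp [dot, zv] at ht
      linear_combination ht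
    simp [dot, zv, th, fT, fA, fp, fz, fq, fW, fd, fL]
    grind
  · obtain rfl : w = 0 := by simpa [dot, zv] using ht
    simp [dot, zv, th]
  · obtain rfl : x = w := by
      simp [dot, zv] at ht
      linear_combination ht
    simp [dot, zv, th, fT, fA, fp, fz, fq, fW, fd, fL]
    grind
  · obtain rfl : x = -w := by
      simp [dot, zv] at ht
      linear_combination ht
    simp [dot, zv, th, fT, fA, fp, fz, fq, fW, fd, fL]
    grind
  · obtain rfl : x = ω * w := by
      simp [dot, zv] at ht
      linear_combination ht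
    simp [dot, zv, th, fT, fA, fp, fz, fq, fW, fd, fL]
    grind
  · obtain rfl : x = -(ω * w) := by
      simp [dot, zv] at ht
      linear_combination ht
    simp [dot, zv, th, fT, fA, fp, fz, fq, fW, fd, fL]
    grind
  · obtain rfl : y = w := by
      simp [dot, zv] at ht
      linear_combination ht
    simp [dot, zv, th, fT, fA, fp, fz, fq, fW, fd, fL]
    grind
  · obtain rfl : y = -w := by
      simp [dot, zv] at ht
      linear_combination ht
    simp [dot, zv, th, fT, fA, fp, fz, fq, fW, fd, fL]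
    grind
  · obtain rfl : y = ω * w := by
      simp [dot, zv] at ht
      linear_combination ht
    simp [dot, zv, th, fT, fA, fp, fz, fq, fW, fd, fL]
    grind
  · obtain rfl : y = -(ω * w) := by
      simp [dot, zv] at ht
      linear_combination ht
    simp [dot, zv, th, fT, fA, fp, fz, fq, fW, fd, fL]
    grind
  · obtain rfl : x = w - y := by
      simp [dot, zv] at ht
      linear_combination ht
    simp [dot, zv, th, fT, fA, fp, fz, fq, fW, fd, fL]
    grind
  · obtain rfl : x = -w - y := by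
      simp [dot, zv] at ht
      linear_combination ht
    simp [dot, zv, th, fT, fA, fp, fz, fq, fW, fd, fL]
    grind
  · obtain rfl : x = ω * w - y := by
      simp [dot, zv] at ht
      linear_combination ht
    simp [dot, zv, th, fT, fA, fp, fz, fq, fW, fd, fL]
    grind
  · obtain rfl : x = -(ω * w) - y := by
      simp [dot, zv] at ht
      linear_combination ht
    simp [dot, zv, th, fT, fA, fp, fz, fq, fW, fd, fL]
    grind


end A

section B


variable {K : Type*} [Field K]

lemma nz {ω : K} (hw : ω^2+ω+1=0) {a b : K} (h : a^2 - a*b + b^2 ≠ 0) : a + b * ω ≠ 0 := by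
  intro h0
  apply h
  have : a = -(b*ω) := by linear_combination h0
  rw [this]
  linear_combination b^2 * hw

lemma mm_ne [CharZero K] (ω h : K) (hw : ω^2+ω+1=0) (hh : 2 * h = 1) (i : Fin 21) :
    ∃ t, dot (zv ω h i) t = 0 ∧ ∃ j, mm ω t j ≠ 0 := by
  fin_cases i
  · refine ⟨![0, 1, 2], ?_, 0, ?_⟩
    · simp [dot, zv]
      try grind
    · have e : mm ω ![0, 1, 2] 0 = (-2772) + (1260) * ω := by
        simp [mm, fT, fA, fp, fz, fq, fW, fd, fL]
        grind
      rw [e]
      exact nz hw (by norm_num)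
  · refine ⟨![1, 0, 2], ?_, 1, ?_⟩
    · simp [dot, zv]
      try grind
    · have e : mm ω ![1, 0, 2] 1 = (2772) + (-1260) * ω := by
        simp [mm, fT, fA, fp, fz, fq, fW, fd, fL]
        grind
      rw [e]
      exact nz hw (by norm_num)
  · refine ⟨![1, -1, 2], ?_, 0, ?_⟩
    · simp [dot, zv]
      try grind
    · have e : mm ω ![1, -1, 2] 0 = (2772) + (-1260) * ω := by
        simp [mm, fT, fA, fp, fz, fq, fW, fd, fL]
        grind
      rw [e]
      exact nz hw (by norm_num)
  · refine ⟨![1, 1, 3], ?_, 0, ?_⟩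
    · simp [dot, zv]
      try grind
    · have e : mm ω ![1, 1, 3] 0 = (-83160) + (52920) * ω := by
        simp [mm, fT, fA, fp, fz, fq, fW, fd, fL]
        grind
      rw [e]
      exact nz hw (by norm_num)
  · refine ⟨![2, -1, 3], ?_, 0, ?_⟩
    · simp [dot, zv]
      try grind
    · have e : mm ω ![2, -1, 3] 0 = (83160) + (-52920) * ω := by
        simp [mm, fT, fA, fp, fz, fq, fW, fd, fL]
        grind
      rw [e]
      exact nz hw (by norm_num)
  · refine ⟨![1, -2, 3], ?_, 0, ?_⟩
    · simp [dot, zv]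
      try grind
    · have e : mm ω ![1, -2, 3] 0 = (166320) + (-105840) * ω := by
        simp [mm, fT, fA, fp, fz, fq, fW, fd, fL]
        grind
      rw [e]
      exact nz hw (by norm_num)
  · refine ⟨![ω, 1, 2], ?_, 0, ?_⟩
    · simp [dot, zv]
      try grind
    · have e : mm ω ![ω, 1, 2] 0 = (-4536) + (0) * ω := by
        simp [mm, fT, fA, fp, fz, fq, fW, fd, fL]
        grind
      rw [e]
      exact nz hw (by norm_num)
  · refine ⟨![-1 - ω, 1, 2], ?_, 0, ?_⟩
    · simp [dot, zv]
      try grind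
    · have e : mm ω ![-1 - ω, 1, 2] 0 = (-4536) + (0) * ω := by
        simp [mm, fT, fA, fp, fz, fq, fW, fd, fL]
        grind
      rw [e]
      exact nz hw (by norm_num)
  · refine ⟨![1, 3, 0], ?_, 2, ?_⟩
    · simp [dot, zv]
      try grind
    · have e : mm ω ![1, 3, 0] 2 = (-425880) + (-425880) * ω := by
        simp [mm, fT, fA, fp, fz, fq, fW, fd, fL]
        grind
      rw [e]
      exact nz hw (by norm_num)
  · refine ⟨![1, 3, 1], ?_, 0, ?_⟩
    · simp [dot, zv]
      try grind
    · have e : mm ω ![1, 3, 1] 0 = (360360) + (425880) * ω := by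
        simp [mm, fT, fA, fp, fz, fq, fW, fd, fL]
        grind
      rw [e]
      exact nz hw (by norm_num)
  · refine ⟨![-1, 3, 1], ?_, 0, ?_⟩
    · simp [dot, zv]
      try grind
    · have e : mm ω ![-1, 3, 1] 0 = (12600) + (17640) * ω := by
        simp [mm, fT, fA, fp, fz, fq, fW, fd, fL]
        grind
      rw [e]
      exact nz hw (by norm_num)
  · refine ⟨![ω, 3, 1], ?_, 0, ?_⟩
    · simp [dot, zv]
      try grind
    · have e : mm ω ![ω, 3, 1] 0 = (-45864) + (26208) * ω := by
        simp [mm, fT, fA, fp, fz, fq, fW, fd, fL]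
        grind
      rw [e]
      exact nz hw (by norm_num)
  · refine ⟨![-ω, 3, 1], ?_, 0, ?_⟩
    · simp [dot, zv]
      try grind
    · have e : mm ω ![-ω, 3, 1] 0 = (247464) + (20160) * ω := by
        simp [mm, fT, fA, fp, fz, fq, fW, fd, fL]
        grind
      rw [e]
      exact nz hw (by norm_num)
  · refine ⟨![3, 1, 1], ?_, 1, ?_⟩
    · simp [dot, zv]
      try grind
    · have e : mm ω ![3, 1, 1] 1 = (-360360) + (-425880) * ω := by
        simp [mm, fT, fA, fp, fz, fq, fW, fd, fL]
        grind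
      rw [e]
      exact nz hw (by norm_num)
  · refine ⟨![3, -1, 1], ?_, 1, ?_⟩
    · simp [dot, zv]
      try grind
    · have e : mm ω ![3, -1, 1] 1 = (-12600) + (-17640) * ω := by
        simp [mm, fT, fA, fp, fz, fq, fW, fd, fL]
        grind
      rw [e]
      exact nz hw (by norm_num)
  · refine ⟨![3, ω, 1], ?_, 1, ?_⟩
    · simp [dot, zv]
      try grind
    · have e : mm ω ![3, ω, 1] 1 = (45864) + (-26208) * ω := by
        simp [mm, fT, fA, fp, fz, fq, fW, fd, fL]
        grind
      rw [e]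
      exact nz hw (by norm_num)
  · refine ⟨![3, -ω, 1], ?_, 1, ?_⟩
    · simp [dot, zv]
      try grind
    · have e : mm ω ![3, -ω, 1] 1 = (-247464) + (-20160) * ω := by
        simp [mm, fT, fA, fp, fz, fq, fW, fd, fL]
        grind
      rw [e]
      exact nz hw (by norm_num)
  · refine ⟨![3, -2, 1], ?_, 0, ?_⟩
    · simp [dot, zv]
      try grind
    · have e : mm ω ![3, -2, 1] 0 = (-12600) + (-17640) * ω := by
        simp [mm, fT, fA, fp, fz, fq, fW, fd, fL]
        grind
      rw [e]
      exact nz hw (by norm_num)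
  · refine ⟨![3, -4, 1], ?_, 0, ?_⟩
    · simp [dot, zv]
      try grind
    · have e : mm ω ![3, -4, 1] 0 = (-360360) + (-425880) * ω := by
        simp [mm, fT, fA, fp, fz, fq, fW, fd, fL]
        grind
      rw [e]
      exact nz hw (by norm_num)
  · refine ⟨![3, -3 + ω, 1], ?_, 0, ?_⟩
    · simp [dot, zv]
      try grind
    · have e : mm ω ![3, -3 + ω, 1] 0 = (-247464) + (-20160) * ω := by
        simp [mm, fT, fA, fp, fz, fq, fW, fd, fL]
        grind
      rw [e]
      exact nz hw (by norm_num)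
  · refine ⟨![3, -3 - ω, 1], ?_, 0, ?_⟩
    · simp [dot, zv]
      try grind
    · have e : mm ω ![3, -3 - ω, 1] 0 = (45864) + (-26208) * ω := by
        simp [mm, fT, fA, fp, fz, fq, fW, fd, fL]
        grind
      rw [e]
      exact nz hw (by norm_num)


end B

section C


variable {K : Type*} [CommRing K] [IsDomain K]

omit [IsDomain K] in
/-- the values of the linear forms -/
lemma dot_zv (ω h : K) (x y w : K) : (fun i => dot (zv ω h i) ![x,y,w]) =
    ![x, y, x + y, x - y, x + 2 * y, x + h * y, x - ω * y, x + (1 + ω) * y, w,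
      x - w, x + w, x - ω * w, x + ω * w, y - w, y + w, y - ω * w, y + ω * w,
      x + y - w, x + y + w, x + y - ω * w, x + y + ω * w] := by
  funext i
  fin_cases i <;> simp [dot, zv] <;> ring

lemma sing_on [CharZero K] (ω h : K) (hw : ω^2+ω+1=0) (hh : 2 * h = 1) (t : Fin 3 → K)
    (ht : mm ω t = 0) : ∃ i, dot (zv ω h i) t = 0 := by
  by_contra hcon
  push Not at hcon
  obtain ⟨x, y, w, rfl⟩ : ∃ x y w, t = ![x, y, w] :=
    ⟨t 0, t 1, t 2, by funext j; fin_cases j <;> rfl⟩
  have hc : ∀ i, (![x, y, x + y, x - y, x + 2 * y, x + h * y, x - ω * y, x + (1 + ω) * y, w,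
      x - w, x + w, x - ω * w, x + ω * w, y - w, y + w, y - ω * w, y + ω * w,
      x + y - w, x + y + w, x + y - ω * w, x + y + ω * w] : Fin 21 → K) i ≠ 0 := by
    intro i
    rw [← dot_zv]
    exact hcon i
  have h0 := hc 0
  have h1 := hc 1
  have h2 := hc 2
  have h3 := hc 3
  have h4 := hc 4
  have h5 := hc 5
  have h6 := hc 6
  have h7 := hc 7
  have h8 := hc 8
  have h9 := hc 9
  have h10 := hc 10
  have h13 := hc 13
  have h14 := hc 14
  have h17 := hc 17
  have h18 := hc 18
  simp at h0 h1 h2 h3 h4 h5 h6 h7 h8 h9 h10 h13 h14 h17 h18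
  have h3' : (3 : K) ≠ 0 := by simp
  have e2 := congrFun ht 2
  have e1 := congrFun ht 1
  have hp : fp ![x, y, w] ≠ 0 := by
    have : fp ![x, y, w] = -((x - ω * y) * (x + (1 + ω) * y)) := by
      simp [fp]
      linear_combination -y^2 * hw
    rw [this]
    exact neg_ne_zero.2 (mul_ne_zero h6 h7)
  have hd : fd ![x, y, w] ≠ 0 := by
    have : fd ![x, y, w] = -((x - y) * (x + 2 * y) * (2 * (x + h * y))) := by
      simp [fd, fz]
      linear_combination (x-y)*(x+2*y)*y * hh
    rw [this]
    exact neg_ne_zero.2 (mul_ne_zero (mul_ne_zero h3 h4) (mul_ne_zero two_ne_zero h5))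
  have hz : fz ![x, y, w] ≠ 0 := by
    have : fz ![x, y, w] = -(x + y) := by
      simp [fz]
      ring
    rw [this]
    exact neg_ne_zero.2 h2
  have hq : fq ![x, y, w] ≠ 0 := by
    rw [fq]
    exact mul_ne_zero (mul_ne_zero h0 h1) hz
  have hL : fL ω ![x, y, w] = 0 := by
    by_contra hL
    have : mm ω ![x, y, w] 2 ≠ 0 := by
      change 3 * fT ω ![x, y, w] * fq ![x, y, w] ≠ 0
      rw [fT]
      exact mul_ne_zero (mul_ne_zero h3' (mul_ne_zero (mul_ne_zero hp hL) hd)) hq
    exact this e2
  have hT : fT ω ![x, y, w] = 0 := by rw [fT, hL, mul_zero, zero_mul]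
  have hA : fA ω ![x, y, w] = 0 := by
    change w * x * (fT ω ![x, y, w] * _ - fA ω ![x, y, w]) = 0 at e1
    rw [hT, zero_mul, zero_sub] at e1
    exact neg_eq_zero.1 ((mul_eq_zero.1 e1).resolve_left (mul_ne_zero h8 h0))
  have hW : fW ![x, y, w] ≠ 0 := by
    change w ^ 2 ≠ 0
    exact pow_ne_zero 2 h8
  have h7' : (3 * fW ![x, y, w] - 5 * ω ^ 2 * fp ![x, y, w]) ≠ 0 := by
    have : 3 * fW ![x, y, w] - 5 * ω ^ 2 * fp ![x, y, w] = -7 * fW ![x, y, w] := by
      rw [fL] at hL
      linear_combination 5 * hL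
    rw [this]
    exact mul_ne_zero (by simp) hW
  rw [fA, hL, mul_zero, zero_mul, zero_mul, zero_add] at hA
  have hB := (mul_eq_zero.1 hA).resolve_left (mul_ne_zero h3' h7')
  have hC : fq ![x, y, w] ^ 2 - fW ![x, y, w] * (fW ![x, y, w] + fp ![x, y, w]) ^ 2 =
    (x - w) * (x + w) * ((y - w) * (y + w)) * ((x + y - w) * (x + y + w)) := by
    simp [fq, fW, fp, fz]
    ring
  rw [hC] at hB
  exact mul_ne_zero (mul_ne_zero (mul_ne_zero h9 h10) (mul_ne_zero h13 h14)) (mul_ne_zero h17 h18)
    hB


end C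

end Pool.Agent.H880.Unexp
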