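import Mathlib
import Pool.Agent.H880.Unexp.Sing

open MvPolynomial

namespace Pool.Agent.H880.Unexp
open Pool.Agent.Helper413 Pool.Agent.Helper413.Split

variable {K : Type*} [Field K]

lemma p0T {ω : K} (hw : ω^2+ω+1=0) (y : K) : fT ω ![ω * y, y, 1] = 0 := by
  simp [fT, fp]
  grind

lemma p0A {ω : K} (hw : ω^2+ω+1=0) (y : K) : fA ω ![ω * y, y, 1] = 9 * (y ^ 6 - 1) := by
  simp [fA, fp, fW, fL, fq, fz]
  grind

lemma p0T' {ω : K} (hw : ω^2+ω+1=0) (y : K) : fT ω ![ω ^ 2 * y, y, 1] = 0 := by
  simp [fT, fp]
  grind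

lemma p0A' {ω : K} (hw : ω^2+ω+1=0) (y : K) : fA ω ![ω ^ 2 * y, y, 1] = 9 * (y ^ 6 - 1) := by
  simp [fA, fp, fW, fL, fq, fz]
  grind

lemma x0A {ω : K} (hw : ω^2+ω+1=0) (y : K) : fA ω ![0, y, 1] - fT ω ![0, y, 1] * (-y) =
    -3 * ((1 - y^2) * (1 - ω * y^2) * (3 + 2*ω^2*y^2+2*ω*y^4)) := by
  simp [fA, fT, fd, fp, fW, fL, fq, fz]
  grind

lemma y0A {ω : K} (hw : ω^2+ω+1=0) (x : K) : fA ω ![x, 0, 1] - fT ω ![x, 0, 1] * x =
    -3 * ((1 - x^2) * (1 - ω * x^2) * (3 + 2*ω^2*x^2+2*ω*x^4)) := by
  simp [fA, fT, fd, fp, fW, fL, fq, fz]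
  grind

lemma contra [CharZero K] {ω : K} (hw : ω^2+ω+1=0) {k : K} (h1 : k ^ 3 = -27)
    (h2 : (1 - k) * (1 - ω * k) * (3 + 2*ω^2*k+2*ω*k^2) = 0) : False := by
  rcases mul_eq_zero.1 h2 with h3 | h3
  · rcases mul_eq_zero.1 h3 with h4 | h4
    · have : k = 1 := by linear_combination -h4
      rw [this] at h1
      norm_num at h1
    · have h5 : ω * k = 1 := by linear_combination -h4
      have h6 : ω ^ 3 = 1 := by linear_combination (ω - 1) * hw
      have h7 : (ω * k) ^ 3 = -27 := by rw [mul_pow, h6, h1, one_mul]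
      rw [h5] at h7
      norm_num at h7
  · have h6 : ω ^ 3 = 1 := by linear_combination (ω - 1) * hw
    obtain ⟨n, hn⟩ : ∃ n, n = ω ^ 2 * k := ⟨_, rfl⟩
    have h7 : n ^ 3 = -27 := by
      rw [hn, mul_pow, ← pow_mul, mul_comm 2 3, pow_mul, h6, h1]
      ring
    have h8 : 2 * n ^ 2 + 2 * n + 3 = 0 := by
      rw [hn]
      linear_combination h3 + 2 * ω * k^2 * h6
    have h9 : n = 57 := by
      linear_combination (-2) * h7 + (n - 1) * h8
    rw [h9] at h7
    norm_num at h7

section D

variable {K : Type*} [Field K]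

/-- the line `z` is invariant under `θ` -/
def Inv (ω : K) (z : Fin 3 → K) : Prop := ∀ t, dot z t = 0 → dot z (th ω t) = 0

lemma k6 {ω k : K} (hw : ω^2+ω+1=0) (h6 : k ^ 6 = 1)
    (h0 : (2 * k ^ 6 * (2 + ω^2 * k^2)) = -k^2 * (2 + ω^2*k^2) * (3 - k^2) * (3 - 4 * k^2) -
      3 * (3 + 5 * ω^2 * k^2) * (1 - k^2)^2) [CharZero K] :
    k = 1 ∨ k = -1 ∨ k = ω ∨ k = -ω := by
  have h1 : (k - 1) * (k + 1) * ((k - ω) * (k + ω)) * (k^2 - ω) = 0 := by
    have : (k - 1) * (k + 1) * ((k - ω) * (k + ω)) * (k^2 - ω) = k^6 - 1 := by grind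
    rw [this, h6, sub_self]
  have h2 : k^2 - ω ≠ 0 := by
    intro h3
    have h4 : k^2 = ω := by linear_combination h3
    rw [h6, h4] at h0
    have h5 : (63 : K) = 0 := by grind
    norm_num at h5
  have h3 := (mul_eq_zero.1 h1).resolve_right h2
  rcases mul_eq_zero.1 h3 with h4 | h4
  · rcases mul_eq_zero.1 h4 with h5 | h5
    · left
      linear_combination h5
    · right; left
      linear_combination h5
  · rcases mul_eq_zero.1 h4 with h5 | h5
    · right; right; left
      linear_combination h5
    · right; right; right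
      linear_combination h5

lemma inv_x [CharZero K] {ω k : K} (hw : ω^2+ω+1=0) (hz : Inv ω ![1, 0, -k]) :
    k = 0 ∨ k = 1 ∨ k = -1 ∨ k = ω ∨ k = -ω := by
  by_cases hk : k = 0
  · exact Or.inl hk
  right
  have h1 := hz ![k, ω * k, 1] (by simp [dot])
  have h2 := hz ![k, 0, 1] (by simp [dot])
  have e1 : dot ![1, 0, -k] (th ω ![k, ω * k, 1]) = -9 * k * (k ^ 6 - 1) := by
    simp [dot, th, fT, fA, fd, fp, fW, fL, fq, fz]
    grind
  have e2 : dot ![1, 0, -k] (th ω ![k, 0, 1]) = k * ((2 * k ^ 6 * (2 + ω^2 * k^2)) -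
      (-k^2 * (2 + ω^2*k^2) * (3 - k^2) * (3 - 4 * k^2) -
      3 * (3 + 5 * ω^2 * k^2) * (1 - k^2)^2)) := by
    simp [dot, th, fT, fA, fd, fp, fW, fL, fq, fz]
    grind
  rw [e1] at h1
  rw [e2] at h2
  apply k6 hw
  · have := (mul_eq_zero.1 h1).resolve_left (mul_ne_zero (by norm_num) hk)
    linear_combination this
  · have := (mul_eq_zero.1 h2).resolve_left hk
    linear_combination this

lemma inv_y [CharZero K] {ω k : K} (hw : ω^2+ω+1=0) (hz : Inv ω ![0, 1, -k]) :
    k = 0 ∨ k = 1 ∨ k = -1 ∨ k = ω ∨ k = -ω := by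
  by_cases hk : k = 0
  · exact Or.inl hk
  right
  have h1 := hz ![ω * k, k, 1] (by simp [dot])
  have h2 := hz ![0, k, 1] (by simp [dot])
  have e1 : dot ![0, 1, -k] (th ω ![ω * k, k, 1]) = -9 * k * (k ^ 6 - 1) := by
    simp [dot, th, fT, fA, fd, fp, fW, fL, fq, fz]
    grind
  have e2 : dot ![0, 1, -k] (th ω ![0, k, 1]) = k * ((2 * k ^ 6 * (2 + ω^2 * k^2)) -
      (-k^2 * (2 + ω^2*k^2) * (3 - k^2) * (3 - 4 * k^2) -
      3 * (3 + 5 * ω^2 * k^2) * (1 - k^2)^2)) := by
    simp [dot, th, fT, fA, fd, fp, fW, fL, fq, fz]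
    grind
  rw [e1] at h1
  rw [e2] at h2
  apply k6 hw
  · have := (mul_eq_zero.1 h1).resolve_left (mul_ne_zero (by norm_num) hk)
    linear_combination this
  · have := (mul_eq_zero.1 h2).resolve_left hk
    linear_combination this

lemma inv_z [CharZero K] {ω k : K} (hw : ω^2+ω+1=0) (hz : Inv ω ![1, 1, -k]) :
    k = 0 ∨ k = 1 ∨ k = -1 ∨ k = ω ∨ k = -ω := by
  by_cases hk : k = 0
  · exact Or.inl hk
  right
  have h1 := hz ![-ω * k, -ω^2 * k, 1] (by simp [dot]; linear_combination -k * hw)
  have h2 := hz ![k, 0, 1] (by simp [dot])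
  have e1 : dot ![1, 1, -k] (th ω ![-ω * k, -ω^2 * k, 1]) = -9 * k * (k ^ 6 - 1) := by
    simp [dot, th, fT, fA, fd, fp, fW, fL, fq, fz]
    grind
  have e2 : dot ![1, 1, -k] (th ω ![k, 0, 1]) = k * ((2 * k ^ 6 * (2 + ω^2 * k^2)) -
      (-k^2 * (2 + ω^2*k^2) * (3 - k^2) * (3 - 4 * k^2) -
      3 * (3 + 5 * ω^2 * k^2) * (1 - k^2)^2)) := by
    simp [dot, th, fT, fA, fd, fp, fW, fL, fq, fz]
    grind
  rw [e1] at h1
  rw [e2] at h2
  apply k6 hw
  · have := (mul_eq_zero.1 h1).resolve_left (mul_ne_zero (by norm_num) hk)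
    linear_combination this
  · have := (mul_eq_zero.1 h2).resolve_left hk
    linear_combination this

lemma inv_xy [CharZero K] {ω k : K} (hw : ω^2+ω+1=0) (hz : Inv ω ![1, -1, k]) : k = 0 := by
  by_contra hk
  obtain ⟨y, hy⟩ : ∃ y, (1 - ω) * y = k := by
    refine ⟨k * (1 - ω^2) / 3, ?_⟩
    field_simp
    grind
  have h1 := hz ![ω * y, y, 1] (by simp [dot]; linear_combination -hy)
  have h2 := hz ![0, k, 1] (by simp [dot])
  have e1 : dot ![1, -1, k] (th ω ![ω * y, y, 1]) = k * (9 * (y ^ 6 - 1)) := by
    simp only [th, p0T hw, p0A hw]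
    simp [dot]
  have e2 : dot ![1, -1, k] (th ω ![0, k, 1]) = k * (fA ω ![0, k, 1] - fT ω ![0, k, 1] * (-k)) := by
    simp [th, dot, fz]
    ring
  rw [e1] at h1
  rw [e2, x0A hw] at h2
  have h3 := (mul_eq_zero.1 ((mul_eq_zero.1 h1).resolve_left hk)).resolve_left (by norm_num)
  have h4 := (mul_eq_zero.1 ((mul_eq_zero.1 h2).resolve_left hk)).resolve_left (by norm_num)
  apply contra hw (k := k^2)
  · have : k^2 = -3 * ω * y^2 := by
      rw [← hy]
      linear_combination y^2 * hw
    rw [this]
    grind
  · linear_combination h4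

end D
section E

variable {K : Type*} [Field K] [CharZero K]

lemma inv_yz {ω k : K} (hw : ω^2+ω+1=0) (hz : Inv ω ![1, 2, k]) : k = 0 := by
  by_contra hk
  obtain ⟨y, hy⟩ : ∃ y, (ω + 2) * y = -k := by
    refine ⟨-k * (ω^2 + 2) / 3, ?_⟩
    field_simp
    grind
  have h1 := hz ![ω * y, y, 1] (by simp [dot]; linear_combination hy)
  have h2 := hz ![-k, 0, 1] (by simp [dot])
  have e1 : dot ![1, 2, k] (th ω ![ω * y, y, 1]) = k * (9 * (y ^ 6 - 1)) := by
    simp only [th, p0T hw, p0A hw]
    simp [dot]
  have e2 : dot ![1, 2, k] (th ω ![-k, 0, 1]) =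
      k * (fA ω ![-k, 0, 1] - fT ω ![-k, 0, 1] * (-k)) := by
    simp [th, dot, fz]
    ring
  rw [e1] at h1
  rw [e2, y0A hw] at h2
  have h3 := (mul_eq_zero.1 ((mul_eq_zero.1 h1).resolve_left hk)).resolve_left (by norm_num)
  have h4 := (mul_eq_zero.1 ((mul_eq_zero.1 h2).resolve_left hk)).resolve_left (by norm_num)
  apply contra hw (k := k^2)
  · have : k^2 = -3 * ω^2 * y^2 := by
      have : k^2 = (-k)^2 := by ring
      rw [this, ← hy]
      linear_combination 4 * y^2 * hw
    rw [this]
    grind
  · linear_combination h4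

lemma inv_xz {ω k : K} (hw : ω^2+ω+1=0) (hz : Inv ω ![2, 1, k]) : k = 0 := by
  by_contra hk
  obtain ⟨y, hy⟩ : ∃ y, (2 * ω + 1) * y = -k := by
    refine ⟨k * (2 * ω + 1) / 3, ?_⟩
    field_simp
    grind
  have h1 := hz ![ω * y, y, 1] (by simp [dot]; linear_combination hy)
  have h2 := hz ![0, -k, 1] (by simp [dot])
  have e1 : dot ![2, 1, k] (th ω ![ω * y, y, 1]) = k * (9 * (y ^ 6 - 1)) := by
    simp only [th, p0T hw, p0A hw]
    simp [dot]
  have e2 : dot ![2, 1, k] (th ω ![0, -k, 1]) =
      k * (fA ω ![0, -k, 1] - fT ω ![0, -k, 1] * (-(-k))) := by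
    simp [th, dot, fz]
    ring
  rw [e1] at h1
  rw [e2, x0A hw] at h2
  have h3 := (mul_eq_zero.1 ((mul_eq_zero.1 h1).resolve_left hk)).resolve_left (by norm_num)
  have h4 := (mul_eq_zero.1 ((mul_eq_zero.1 h2).resolve_left hk)).resolve_left (by norm_num)
  apply contra hw (k := k^2)
  · have : k^2 = -3 * y^2 := by
      have : k^2 = (-k)^2 := by ring
      rw [this, ← hy]
      linear_combination 4 * y^2 * hw
    rw [this]
    grind
  · linear_combination h4

lemma inv_p {ω k : K} (hw : ω^2+ω+1=0) (hz : Inv ω ![1, -ω, k]) : k = 0 := by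
  by_contra hk
  obtain ⟨y, hy⟩ : ∃ y, (ω^2 - ω) * y = -k := by
    refine ⟨k * (ω^2 - ω) / 3, ?_⟩
    field_simp
    grind
  have h1 := hz ![ω^2 * y, y, 1] (by simp [dot]; linear_combination hy)
  have h2 := hz ![-k, 0, 1] (by simp [dot])
  have e1 : dot ![1, -ω, k] (th ω ![ω^2 * y, y, 1]) = k * (9 * (y ^ 6 - 1)) := by
    simp only [th, p0T' hw, p0A' hw]
    simp [dot]
  have e2 : dot ![1, -ω, k] (th ω ![-k, 0, 1]) =
      k * (fA ω ![-k, 0, 1] - fT ω ![-k, 0, 1] * (-k)) := by
    simp [th, dot, fz]
    ring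
  rw [e1] at h1
  rw [e2, y0A hw] at h2
  have h3 := (mul_eq_zero.1 ((mul_eq_zero.1 h1).resolve_left hk)).resolve_left (by norm_num)
  have h4 := (mul_eq_zero.1 ((mul_eq_zero.1 h2).resolve_left hk)).resolve_left (by norm_num)
  apply contra hw (k := k^2)
  · have : k^2 = -3 * y^2 := by
      have : k^2 = (-k)^2 := by ring
      rw [this, ← hy]
      grind
    rw [this]
    grind
  · linear_combination h4

lemma inv_p' {ω k : K} (hw : ω^2+ω+1=0) (hz : Inv ω ![1, 1 + ω, k]) : k = 0 := by
  by_contra hk
  obtain ⟨y, hy⟩ : ∃ y, (ω - ω^2) * y = -k := by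
    refine ⟨-k * (ω^2 - ω) / 3, ?_⟩
    field_simp
    grind
  have h1 := hz ![ω * y, y, 1] (by simp [dot]; linear_combination hy + y * hw)
  have h2 := hz ![-k, 0, 1] (by simp [dot])
  have e1 : dot ![1, 1 + ω, k] (th ω ![ω * y, y, 1]) = k * (9 * (y ^ 6 - 1)) := by
    simp only [th, p0T hw, p0A hw]
    simp [dot]
  have e2 : dot ![1, 1 + ω, k] (th ω ![-k, 0, 1]) =
      k * (fA ω ![-k, 0, 1] - fT ω ![-k, 0, 1] * (-k)) := by
    simp [th, dot, fz]
    ring
  rw [e1] at h1
  rw [e2, y0A hw] at h2
  have h3 := (mul_eq_zero.1 ((mul_eq_zero.1 h1).resolve_left hk)).resolve_left (by norm_num)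
  have h4 := (mul_eq_zero.1 ((mul_eq_zero.1 h2).resolve_left hk)).resolve_left (by norm_num)
  apply contra hw (k := k^2)
  · have : k^2 = -3 * y^2 := by
      have : k^2 = (-k)^2 := by ring
      rw [this, ← hy]
      grind
    rw [this]
    grind
  · linear_combination h4

omit [CharZero K] in
lemma Inv.smul {ω : K} {z : Fin 3 → K} (hz : Inv ω z) (c : K) (hc : c ≠ 0) {z' : Fin 3 → K}
    (h : ∀ j, c * z' j = z j) : Inv ω z' := by
  intro t ht
  have h1 : ∀ s, dot z s = c * dot z' s := by
    intro s
    rw [dot, dot, ← h, ← h, ← h]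
    ring
  have h2 := hz t (by rw [h1, ht, mul_zero])
  rw [h1] at h2
  exact (mul_eq_zero.1 h2).resolve_left hc

/-- the invariant lines -/
theorem classify {ω h : K} (hw : ω^2+ω+1=0) (hh : 2 * h = 1) {z : Fin 3 → K} (hz : Inv ω z)
    (hz0 : z ≠ 0) : ∃ i, ∃ c : K, c ≠ 0 ∧ ∀ j, z j = c * zv ω h i j := by
  obtain ⟨a, b, c, rfl⟩ : ∃ a b c, z = ![a, b, c] :=
    ⟨z 0, z 1, z 2, by funext j; fin_cases j <;> rfl⟩
  have hw0 : ω ≠ 0 := by
    rintro rfl
    simp at hw
  have hprod : (a^2 - a*b + b^2)^2 * ((a + b) * (b - 2 * a) * (a - 2 * b)) *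
      (a * b * (a - b)) = 0 := by
    have h1 := hz ![b, -a, 0] (by simp [dot]; ring)
    have e1 : dot ![a, b, c] (th ω ![b, -a, 0]) = 3 * ω^2 * ((a^2 - a*b + b^2)^2 *
        ((a + b) * (b - 2 * a) * (a - 2 * b)) * (a * b * (a - b))) := by
      simp [dot, th, fT, fA, fd, fp, fW, fL, fq, fz]
      ring
    rw [e1] at h1
    exact (mul_eq_zero.1 h1).resolve_left (mul_ne_zero (by norm_num) (pow_ne_zero 2 hw0))
  have key : ∀ (i : Fin 21) (d : K), d ≠ 0 → (∀ j, ![a, b, c] j = d * zv ω h i j) →
      ∃ i, ∃ c' : K, c' ≠ 0 ∧ ∀ j, ![a, b, c] j = c' * zv ω h i j :=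
    fun i d h1 h2 => ⟨i, d, h1, h2⟩
  have hsp : ∀ {j : Fin 3} {x : K} {v : Fin 3 → K}, v j = x → x = v j := fun h => h.symm
  rcases mul_eq_zero.1 hprod with hp | hp
  · rcases mul_eq_zero.1 hp with hp | hp
    · have hp2 := pow_eq_zero_iff (two_ne_zero) |>.1 hp
      have hp3 : (a + ω * b) * (a + ω^2 * b) = 0 := by grind
      by_cases hb : b = 0
      · have ha : a = 0 := by
          rw [hb] at hp2
          simpa using hp2
        have hc : c ≠ 0 := by
          rintro rfl
          exact hz0 (by rw [ha, hb]; funext j; fin_cases j <;> rfl)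
        apply key 8 c hc
        intro j
        fin_cases j <;> simp [zv, ha, hb]
      rcases mul_eq_zero.1 hp3 with hp4 | hp4
      · have ha : a = -ω * b := by linear_combination hp4
        have ha0 : a ≠ 0 := by rw [ha]; exact mul_ne_zero (neg_ne_zero.2 hw0) hb
        have hb' : b = a * (1 + ω) := by rw [ha]; linear_combination b * hw
        have hk := inv_p' (k := c / a) hw (hz.smul a ha0 (by
          intro j
          fin_cases j
          · simp
          · simp [hb']
          · simp [mul_div_cancel₀ _ ha0]))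
        have hc : c = 0 := by
          rcases div_eq_zero_iff.1 hk with h | h
          · exact h
          · exact absurd h ha0
        apply key 7 a ha0
        intro j
        fin_cases j
        · simp [zv]
        · simp [zv, hb']
        · simp [zv, hc]
      · have ha : a = -ω^2 * b := by linear_combination hp4
        have ha0 : a ≠ 0 := by rw [ha]; exact mul_ne_zero (neg_ne_zero.2 (pow_ne_zero 2 hw0)) hb
        have hb' : b = a * (-ω) := by rw [ha]; linear_combination -b * (ω - 1) * hw
        have hk := inv_p (k := c / a) hw (hz.smul a ha0 (by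
          intro j
          fin_cases j
          · simp
          · simp only [Fin.mk_one, Matrix.cons_val_one, Matrix.cons_val_zero]
            exact hb'.symm
          · simp [mul_div_cancel₀ _ ha0]))
        have hc : c = 0 := by
          rcases div_eq_zero_iff.1 hk with h | h
          · exact h
          · exact absurd h ha0
        apply key 6 a ha0
        intro j
        fin_cases j
        · simp [zv]
        · simp only [Fin.mk_one, zv, Matrix.cons_val_one, Matrix.cons_val_zero]
          simpa [zv] using hb'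
        · simp [zv, hc]
    · by_cases hab : a = 0 ∧ b = 0
      · obtain ⟨ha, hb⟩ := hab
        have hc : c ≠ 0 := by
          rintro rfl
          exact hz0 (by rw [ha, hb]; funext j; fin_cases j <;> rfl)
        apply key 8 c hc
        intro j
        fin_cases j <;> simp [zv, ha, hb]
      rcases mul_eq_zero.1 hp with hp | hp
      · rcases mul_eq_zero.1 hp with hp | hp
        · have hb' : b = -a := by linear_combination hp
          have ha0 : a ≠ 0 := by
            intro ha
            exact hab ⟨ha, by rw [hb', ha, neg_zero]⟩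
          have hk := inv_xy (k := c / a) hw (hz.smul a ha0 (by
            intro j
            fin_cases j
            · simp
            · simp [hb']
            · simp [mul_div_cancel₀ _ ha0]))
          have hc : c = 0 := by
            rcases div_eq_zero_iff.1 hk with h | h
            · exact h
            · exact absurd h ha0
          apply key 3 a ha0
          intro j
          fin_cases j
          · simp [zv]
          · simp [zv, hb']
          · simp [zv, hc]
        · have hb' : b = a * 2 := by linear_combination hp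
          have ha0 : a ≠ 0 := by
            intro ha
            exact hab ⟨ha, by rw [hb', ha, zero_mul]⟩
          have hk := inv_yz (k := c / a) hw (hz.smul a ha0 (by
            intro j
            fin_cases j
            · simp
            · simp [hb']
            · simp [mul_div_cancel₀ _ ha0]))
          have hc : c = 0 := by
            rcases div_eq_zero_iff.1 hk with h | h
            · exact h
            · exact absurd h ha0
          apply key 4 a ha0
          intro j
          fin_cases j
          · simp [zv]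
          · simp [zv, hb']
          · simp [zv, hc]
      · have ha' : a = b * 2 := by linear_combination hp
        have hb0 : b ≠ 0 := by
          intro hb
          exact hab ⟨by rw [ha', hb, zero_mul], hb⟩
        have ha0 : a ≠ 0 := by
          rw [ha']
          exact mul_ne_zero hb0 two_ne_zero
        have hk := inv_xz (k := c / b) hw (hz.smul b hb0 (by
          intro j
          fin_cases j
          · simp [ha']
          · simp
          · simp [mul_div_cancel₀ _ hb0]))
        have hc : c = 0 := by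
          rcases div_eq_zero_iff.1 hk with h | h
          · exact h
          · exact absurd h hb0
        apply key 5 a ha0
        intro j
        fin_cases j
        · simp [zv]
        · simp [zv]
          rw [ha']
          linear_combination -b * hh
        · simp [zv, hc]
  · rcases mul_eq_zero.1 hp with hp | hp
    · by_cases hab : a = 0 ∧ b = 0
      · obtain ⟨ha, hb⟩ := hab
        have hc : c ≠ 0 := by
          rintro rfl
          exact hz0 (by rw [ha, hb]; funext j; fin_cases j <;> rfl)
        apply key 8 c hc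
        intro j
        fin_cases j <;> simp [zv, ha, hb]
      rcases mul_eq_zero.1 hp with ha | hb
      · have hb0 : b ≠ 0 := fun h => hab ⟨ha, h⟩
        have hk := inv_y (k := -(c / b)) hw (hz.smul b hb0 (by
          intro j
          fin_cases j
          · simp [ha]
          · simp
          · simp [mul_div_cancel₀ _ hb0]))
        have hc : c = b * -(-(c / b)) := by field_simp
        rcases hk with h | h | h | h | h
        all_goals rw [h] at hc
        · apply key 1 b hb0
          intro j
          fin_cases j <;> simp [zv, ha, hc]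
        · apply key 13 b hb0
          intro j
          fin_cases j <;> simp [zv, ha, hc]
        · apply key 14 b hb0
          intro j
          fin_cases j <;> simp [zv, ha, hc]
        · apply key 15 b hb0
          intro j
          fin_cases j <;> simp [zv, ha, hc]
        · apply key 16 b hb0
          intro j
          fin_cases j <;> simp [zv, ha, hc]
      · have ha0 : a ≠ 0 := fun h => hab ⟨h, hb⟩
        have hk := inv_x (k := -(c / a)) hw (hz.smul a ha0 (by
          intro j
          fin_cases j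
          · simp
          · simp [hb]
          · simp [mul_div_cancel₀ _ ha0]))
        have hc : c = a * -(-(c / a)) := by field_simp
        rcases hk with h | h | h | h | h
        all_goals rw [h] at hc
        · apply key 0 a ha0
          intro j
          fin_cases j <;> simp [zv, hb, hc]
        · apply key 9 a ha0
          intro j
          fin_cases j <;> simp [zv, hb, hc]
        · apply key 10 a ha0
          intro j
          fin_cases j <;> simp [zv, hb, hc]
        · apply key 11 a ha0
          intro j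
          fin_cases j <;> simp [zv, hb, hc]
        · apply key 12 a ha0
          intro j
          fin_cases j <;> simp [zv, hb, hc]
    · have hb : b = a := by linear_combination -hp
      by_cases ha0 : a = 0
      · have hc : c ≠ 0 := by
          rintro rfl
          exact hz0 (by rw [hb, ha0]; funext j; fin_cases j <;> rfl)
        apply key 8 c hc
        intro j
        fin_cases j <;> simp [zv, ha0, hb]
      have hk := inv_z (k := -(c / a)) hw (hz.smul a ha0 (by
        intro j
        fin_cases j
        · simp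
        · simp [hb]
        · simp [mul_div_cancel₀ _ ha0]))
      have hc : c = a * -(-(c / a)) := by field_simp
      rcases hk with h | h | h | h | h
      all_goals rw [h] at hc
      · apply key 2 a ha0
        intro j
        fin_cases j <;> simp [zv, hb, hc]
      · apply key 17 a ha0
        intro j
        fin_cases j <;> simp [zv, hb, hc]
      · apply key 18 a ha0
        intro j
        fin_cases j <;> simp [zv, hb, hc]
      · apply key 19 a ha0
        intro j
        fin_cases j <;> simp [zv, hb, hc]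
      · apply key 20 a ha0
        intro j
        fin_cases j <;> simp [zv, hb, hc]

end E

end Pool.Agent.H880.Unexp
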