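import Mathlib
import Pool.Agent.H880.Unexp.Classify

open MvPolynomial

universe u

namespace Pool.Agent.H880.Unexp

open Pool.Agent.Helper413 Pool.Agent.Helper413.Split

section Lin

variable {K : Type u} [Field K]

/-- evaluation of a form at a multiple of a vector -/
lemma hom_eval_smul {F : MvPolynomial (Fin 3) K} {n : ℕ} (hF : F.IsHomogeneous n) (s : K)
    (x : Fin 3 → K) : eval (fun j => x j * s) F = eval x F * s ^ n := by
  have h1 := congrArg (fun p => Polynomial.eval s (Polynomial.mapRingHom (eval x) p))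
    (Quad.scal_hom hF)
  simp only [Polynomial.coe_mapRingHom, Polynomial.map_mul, Polynomial.map_C, Polynomial.map_pow,
    Polynomial.map_X, Polynomial.eval_mul, Polynomial.eval_C, Polynomial.eval_pow,
    Polynomial.eval_X] at h1
  rw [← h1]
  have h2 : ((Polynomial.evalRingHom s).comp ((Polynomial.mapRingHom (eval x)).comp
      (Quad.scal (k := K) (σ := Fin 3)).toRingHom)) = eval (fun j => x j * s) := by
    apply MvPolynomial.ringHom_ext
    · intro r
      simp [Quad.scal]
    · intro i
      simp [Quad.scal]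
  have h3 := RingHom.congr_fun h2 F
  rw [← h3]
  rfl

lemma hom_of_scal {F : MvPolynomial (Fin 3) K} {n : ℕ}
    (h : Quad.scal F = Polynomial.C F * Polynomial.X ^ n) : F.IsHomogeneous n := by
  have h1 : homogeneousComponent n F = F := by
    rw [← Quad.coeff_scal, h, Polynomial.coeff_C_mul_X_pow, if_pos rfl]
  rw [← h1]
  exact homogeneousComponent_isHomogeneous n F

/-- the linear form with coefficients `z` -/
noncomputable def lf (z : Fin 3 → K) : MvPolynomial (Fin 3) K := ∑ j, C (z j) * X j

lemma eval_lf (z t : Fin 3 → K) : eval t (lf z) = dot z t := by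
  rw [lf, dot_sum, map_sum]
  exact Finset.sum_congr rfl fun j _ => by rw [map_mul, eval_C, eval_X]

lemma lf_hom (z : Fin 3 → K) : (lf z).IsHomogeneous 1 :=
  IsHomogeneous.sum _ _ _ fun _ _ => isHomogeneous_C_mul_X _ _

lemma lf_ne_zero {z : Fin 3 → K} (hz : z ≠ 0) : lf z ≠ 0 := by
  intro h
  apply hz
  funext j
  have h1 := congrArg (eval (Pi.single j 1)) h
  rw [eval_lf, dot_sum, map_zero] at h1
  simpa [Pi.single_apply] using h1

lemma lf_prime {z : Fin 3 → K} (hz : z ≠ 0) : Prime (lf z) := by
  apply Irreducible.prime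
  apply irreducible_of_totalDegree_eq_one
  · exact (lf_hom z).totalDegree (lf_ne_zero hz)
  · intro x hx
    rw [isUnit_iff_ne_zero]
    rintro rfl
    apply lf_ne_zero hz
    ext d
    rw [coeff_zero]
    exact zero_dvd_iff.1 (hx d)

lemma lf_dvd {z : Fin 3 → K} (hz : z ≠ 0) [Infinite K] {F : MvPolynomial (Fin 3) K}
    (h : ∀ t, dot z t = 0 → eval t F = 0) : lf z ∣ F := by
  obtain ⟨k, hk⟩ : ∃ k, z k ≠ 0 := by
    by_contra hcon
    push Not at hcon
    exact hz (funext hcon)
  let c : Fin 3 → K := Pi.single k (z k)⁻¹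
  let s : MvPolynomial (Fin 3) K →ₐ[K] MvPolynomial (Fin 3) K :=
    aeval fun j => X j - C (c j) * lf z
  have h1 : s F = 0 := by
    apply MvPolynomial.funext
    intro t
    rw [map_zero]
    have h2 : (eval t).comp s.toRingHom = eval (fun j => t j - c j * dot z t) := by
      apply MvPolynomial.ringHom_ext
      · intro r
        simp [s]
      · intro i
        simp [s, eval_lf]
    have h3 : eval t (s F) = eval (fun j => t j - c j * dot z t) F := RingHom.congr_fun h2 F
    rw [h3]
    apply h
    have h4 : ∑ j, z j * c j = 1 := by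
      rw [Finset.sum_eq_single k]
      · simp [c, hk]
      · intro b _ hb
        simp [c, hb]
      · simp
    have h5 : dot z (fun j => t j - c j * dot z t) = dot z t - (∑ j, z j * c j) * dot z t := by
      rw [dot_sum z (fun j => t j - c j * dot z t)]
      simp only [mul_sub, Finset.sum_sub_distrib, Finset.sum_mul]
      rw [← dot_sum]
      congr 1
      exact Finset.sum_congr rfl fun j _ => by ring
    rw [h5, h4, one_mul, sub_self]
  have h2 : (Ideal.Quotient.mkₐ K (Ideal.span {lf z})).comp s =
      Ideal.Quotient.mkₐ K (Ideal.span {lf z}) := by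
    apply MvPolynomial.algHom_ext
    intro i
    simp only [AlgHom.comp_apply, s, aeval_X]
    simp only [Ideal.Quotient.mkₐ_eq_mk]
    rw [Ideal.Quotient.eq]
    have : X i - C (c i) * lf z - X i = - C (c i) * lf z := by ring
    rw [this]
    exact Ideal.mul_mem_left _ _ (Ideal.mem_span_singleton_self _)
  have h3 := AlgHom.congr_fun h2 F
  rw [AlgHom.comp_apply, h1, map_zero] at h3
  exact Ideal.mem_span_singleton.1 (Ideal.Quotient.eq_zero_iff_mem.1 h3.symm)

lemma lf_dvd_eval {z t : Fin 3 → K} (ht : dot z t = 0) {F : MvPolynomial (Fin 3) K}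
    (h : lf z ∣ F) : eval t F = 0 := by
  obtain ⟨q, rfl⟩ := h
  rw [map_mul, eval_lf, ht, zero_mul]

/-- the components of the derivation -/
noncomputable def tp (ω : K) : Fin 3 → MvPolynomial (Fin 3) K := th (C ω) X
noncomputable def mp (ω : K) : Fin 3 → MvPolynomial (Fin 3) K := mm (C ω) X

lemma eval_tp (ω : K) (t : Fin 3 → K) (j : Fin 3) : eval t (tp ω j) = th ω t j := by
  rw [tp, map_th]
  simp

lemma eval_mp (ω : K) (t : Fin 3 → K) (j : Fin 3) : eval t (mp ω j) = mm ω t j := by
  rw [mp, map_mm]
  simp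

lemma tp_hom (ω : K) (j : Fin 3) : (tp ω j).IsHomogeneous 9 := by
  apply hom_of_scal
  have h1 := map_th (Quad.scal (k := K) (σ := Fin 3)).toRingHom (C ω) X j
  have h2 : (Quad.scal (k := K) (σ := Fin 3)).toRingHom (th (C ω) X j) = Quad.scal (tp ω j) := rfl
  rw [← h2, h1]
  have h3 : (fun i => (Quad.scal (k := K) (σ := Fin 3)).toRingHom (X i)) =
      fun i => Polynomial.C (X i) * Polynomial.X := by
    funext i
    simp [Quad.scal]
  have h4 : (Quad.scal (k := K) (σ := Fin 3)).toRingHom (C ω) = Polynomial.C (C ω) := by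
    simp [Quad.scal]
  rw [h3, h4, th_smul]
  congr 1
  exact (map_th (Polynomial.C) (C ω) X j).symm

lemma mp_hom (ω : K) (j : Fin 3) : (mp ω j).IsHomogeneous 10 := by
  apply hom_of_scal
  have h1 := map_mm (Quad.scal (k := K) (σ := Fin 3)).toRingHom (C ω) X j
  have h2 : (Quad.scal (k := K) (σ := Fin 3)).toRingHom (mm (C ω) X j) = Quad.scal (mp ω j) := rfl
  rw [← h2, h1]
  have h3 : (fun i => (Quad.scal (k := K) (σ := Fin 3)).toRingHom (X i)) =
      fun i => Polynomial.C (X i) * Polynomial.X := by
    funext i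
    simp [Quad.scal]
  have h4 : (Quad.scal (k := K) (σ := Fin 3)).toRingHom (C ω) = Polynomial.C (C ω) := by
    simp [Quad.scal]
  rw [h3, h4, mm_smul]
  congr 1
  exact (map_mm (Polynomial.C) (C ω) X j).symm

end Lin

section Prim

lemma map_zv {R R' : Type*} [CommRing R] [CommRing R'] (f : R →+* R') (ω h : R) (i : Fin 21)
    (j : Fin 3) : f (zv ω h i j) = zv (f ω) (f h) i j := by
  fin_cases i <;> fin_cases j <;> simp [zv, map_ofNat]

lemma map_dot {R R' : Type*} [CommRing R] [CommRing R'] (f : R →+* R') (a b : Fin 3 → R) :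
    f (dot a b) = dot (fun i => f (a i)) (fun i => f (b i)) := by
  simp [dot]

variable {K : Type u} [Field K] [CharZero K]

lemma zv_ne_zero (ω h : K) (i : Fin 21) : zv ω h i ≠ 0 := by
  intro h0
  have h1 := congrFun h0 0
  have h2 := congrFun h0 1
  have h3 := congrFun h0 2
  fin_cases i <;> simp [zv] at h1 h2 h3

lemma mp_prim (ω h : K) (hw : ω^2+ω+1=0) (hh : 2 * h = 1) : Prim (mp ω) := by
  constructor
  · obtain ⟨t, -, j, hj⟩ := mm_ne ω h hw hh 0
    refine ⟨j, fun h0 => hj ?_⟩
    rw [← eval_mp, h0, map_zero]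
  · intro π hπ
    by_contra hcon
    push Not at hcon
    let I : Ideal (MvPolynomial (Fin 3) K) := Ideal.span {π}
    have hI : I.IsPrime := (Ideal.span_singleton_prime hπ.ne_zero).2 hπ
    let q := Ideal.Quotient.mk I
    let f : K →+* (MvPolynomial (Fin 3) K ⧸ I) := q.comp C
    have : IsDomain (MvPolynomial (Fin 3) K ⧸ I) := Ideal.Quotient.isDomain I
    have : CharZero (MvPolynomial (Fin 3) K ⧸ I) :=
      charZero_of_injective_algebraMap (algebraMap K (MvPolynomial (Fin 3) K ⧸ I)).injective
    have h1 : mm (f ω) (fun j => q (X j)) = 0 := by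
      funext j
      have := map_mm q (C ω) X j
      exact this.symm.trans
        (Ideal.Quotient.eq_zero_iff_mem.2 (Ideal.mem_span_singleton.2 (hcon j)))
    obtain ⟨i, hi⟩ := sing_on (f ω) (f h)
      (by simpa only [map_add, map_pow, map_one, map_zero] using congrArg f hw)
      (by simpa only [map_mul, map_ofNat, map_one] using congrArg f hh) _ h1
    have h2 : q (lf (zv ω h i)) = 0 := by
      rw [← hi]
      have h3 : lf (zv ω h i) = dot (fun j => C (zv ω h i j)) X := by
        rw [dot_sum]
        rfl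
      rw [h3, map_dot]
      congr 1
      funext j
      exact map_zv f ω h i j
    have h3 : π ∣ lf (zv ω h i) := Ideal.mem_span_singleton.1 (Ideal.Quotient.eq_zero_iff_mem.1 h2)
    have hz := zv_ne_zero ω h i
    have h4 : lf (zv ω h i) ∣ π := (hπ.associated_of_dvd (lf_prime hz) h3).symm.dvd
    obtain ⟨t, ht, j, hj⟩ := mm_ne ω h hw hh i
    apply hj
    rw [← eval_mp]
    exact lf_dvd_eval ht (h4.trans (hcon j))

end Prim

end Pool.Agent.H880.Unexp
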