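import Mathlib
import Pool.Agent.H880.Unexp.Poly

open MvPolynomial

universe u

namespace Pool.Agent.H880.Unexp

open Pool.Agent.Helper413 Pool.Agent.Helper413.Split

section Zero

variable {K : Type u} [Field K] [IsAlgClosed K]

omit [IsAlgClosed K] in
lemma ev_congr {G : MvPolynomial (Fin 3) K} {f g : Fin 3 → K} (h : ∀ j, f j = g j) :
    eval f G = eval g G := by
  rw [funext h]

/-- a form of positive degree vanishes at some nonzero combination of two vectors -/
lemma exists_zero {G : MvPolynomial (Fin 3) K} {n : ℕ} (hG : G.IsHomogeneous n) (hn : 1 ≤ n)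
    (u v : Fin 3 → K) : ∃ a b : K, (a ≠ 0 ∨ b ≠ 0) ∧ eval (fun j => a * u j + b * v j) G = 0 := by
  let k : Polynomial K := aeval (fun j => Polynomial.C (v j) + Polynomial.X * Polynomial.C (u j)) G
  let m : Polynomial K := aeval (fun j => Polynomial.C (u j) + Polynomial.X * Polynomial.C (v j)) G
  have hk : ∀ r, k.eval r = eval (fun j => v j + r * u j) G := by
    intro r
    have h2 : ((Polynomial.evalRingHom r).comp
        (aeval (R := K) (fun j => Polynomial.C (v j) + Polynomial.X * Polynomial.C (u j))).toRingHom)
        = eval (fun j => v j + r * u j) := by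
      apply MvPolynomial.ringHom_ext
      · intro r
        simp
      · intro i
        simp
        ring
    exact RingHom.congr_fun h2 G
  have hm : ∀ r, m.eval r = eval (fun j => u j + r * v j) G := by
    intro r
    have h2 : ((Polynomial.evalRingHom r).comp
        (aeval (R := K) (fun j => Polynomial.C (u j) + Polynomial.X * Polynomial.C (v j))).toRingHom)
        = eval (fun j => u j + r * v j) := by
      apply MvPolynomial.ringHom_ext
      · intro r
        simp
      · intro i
        simp
        ring
    exact RingHom.congr_fun h2 G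
  by_cases hd : k.degree = 0
  · have hc := Polynomial.eq_C_of_degree_eq_zero hd
    have h1 : Polynomial.X * m = Polynomial.C (k.coeff 0) * Polynomial.X ^ (n + 1) := by
      apply Polynomial.funext
      intro r
      rw [Polynomial.eval_mul, Polynomial.eval_X, Polynomial.eval_mul, Polynomial.eval_C,
        Polynomial.eval_pow, Polynomial.eval_X, hm]
      by_cases hr : r = 0
      · rw [hr]
        simp
      · have h2 : eval (fun j => u j + r * v j) G = k.eval r⁻¹ * r ^ n := by
          rw [hk, ← hom_eval_smul hG]
          apply ev_congr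
          intro j
          field_simp
          ring
        rw [h2]
        rw [hc, Polynomial.eval_C, Polynomial.coeff_C_zero]
        ring
    have h2 : m = Polynomial.C (k.coeff 0) * Polynomial.X ^ n := by
      apply mul_left_cancel₀ (Polynomial.X_ne_zero (R := K))
      rw [h1]
      ring
    refine ⟨1, 0, Or.inl one_ne_zero, ?_⟩
    have h3 := hm 0
    rw [h2, Polynomial.eval_mul, Polynomial.eval_pow, Polynomial.eval_X,
      zero_pow (by omega), mul_zero] at h3
    rw [ev_congr (g := fun j => u j + 0 * v j) (fun j => by ring), ← h3]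
  · obtain ⟨r, hr⟩ := IsAlgClosed.exists_root k hd
    refine ⟨r, 1, Or.inr one_ne_zero, ?_⟩
    rw [Polynomial.IsRoot, hk] at hr
    rw [← hr]
    exact ev_congr fun j => by ring

/-- a form of positive degree vanishes at some vector that is not proportional to `P` -/
lemma exists_zero_cr {G : MvPolynomial (Fin 3) K} {n : ℕ} (hG : G.IsHomogeneous n) (hn : 1 ≤ n)
    {P : Fin 3 → K} (hP : P ≠ 0) : ∃ x, cr P x ≠ 0 ∧ eval x G = 0 := by
  obtain ⟨k, hk⟩ : ∃ k, P k ≠ 0 := by
    by_contra hcon
    push Not at hcon
    exact hP (funext hcon)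
  obtain ⟨i, j, hij, hcr⟩ : ∃ i j : Fin 3, i ≠ j ∧ ∀ a b : K, (a ≠ 0 ∨ b ≠ 0) →
      cr P (fun l => a * (Pi.single i 1 : Fin 3 → K) l + b * (Pi.single j 1 : Fin 3 → K) l) ≠ 0 := by
    fin_cases k
    · refine ⟨1, 2, by decide, fun a b hab h0 => ?_⟩
      have h1 := congrFun h0 1
      have h2 := congrFun h0 2
      simp [cr] at h1 h2 hk
      rcases hab with h | h
      · exact (h2.resolve_left hk) |> h
      · exact (h1.resolve_left hk) |> h
    · refine ⟨0, 2, by decide, fun a b hab h0 => ?_⟩
      have h1 := congrFun h0 0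
      have h2 := congrFun h0 2
      simp [cr] at h1 h2 hk
      rcases hab with h | h
      · exact (h2.resolve_left hk) |> h
      · exact (h1.resolve_left hk) |> h
    · refine ⟨0, 1, by decide, fun a b hab h0 => ?_⟩
      have h1 := congrFun h0 0
      have h2 := congrFun h0 1
      simp [cr] at h1 h2 hk
      rcases hab with h | h
      · exact (h2.resolve_left hk) |> h
      · exact (h1.resolve_left hk) |> h
  obtain ⟨a, b, hab, h0⟩ := exists_zero hG hn (Pi.single i 1) (Pi.single j 1)
  exact ⟨_, hcr a b hab, h0⟩

end Zero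

section Curve

variable {K : Type u} [Field K]

/-- `P × X` -/
noncomputable def cv (P : Fin 3 → K) : Fin 3 → MvPolynomial (Fin 3) K := cr (fun j => C (P j)) X

/-- the equation of the unexpected curve -/
noncomputable def FP (ω : K) (P : Fin 3 → K) : MvPolynomial (Fin 3) K :=
  dot X (th (C ω) (cv P))

lemma eval_FP (ω : K) (P x : Fin 3 → K) : eval x (FP ω P) = dot x (th ω (cr P x)) := by
  rw [FP, map_dot]
  have h1 : (fun i => eval x (th (C ω) (cv P) i)) = th ω (cr P x) := by
    funext i
    rw [map_th, eval_C]
    congr 1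
    funext j
    rw [cv, map_cr]
    congr 1
    · funext l
      simp
    · funext l
      simp
  rw [h1]
  congr 1
  funext i
  simp

lemma th_cv (ω : K) (P : Fin 3 → K) (j : Fin 3) : th (C ω) (cv P) j = aeval (cv P) (tp ω j) := by
  have h1 := map_th (aeval (R := K) (cv P)).toRingHom (C ω) X j
  have h2 : (aeval (R := K) (cv P)).toRingHom (th (C ω) X j) = aeval (cv P) (tp ω j) := rfl
  rw [← h2, h1]
  congr 1
  · simp
  · funext i
    simp

lemma cv_hom (P : Fin 3 → K) (j : Fin 3) : (cv P j).IsHomogeneous 1 := by
  fin_cases j <;> simp only [cv, cr]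
  all_goals
    apply IsHomogeneous.sub <;> exact isHomogeneous_C_mul_X _ _

lemma th_cv_hom (ω : K) (P : Fin 3 → K) (j : Fin 3) : (th (C ω) (cv P) j).IsHomogeneous 9 := by
  rw [th_cv]
  have h1 := (tp_hom ω j).aeval (cv P) (cv_hom P)
  rwa [one_mul] at h1

lemma FP_hom (ω : K) (P : Fin 3 → K) : (FP ω P).IsHomogeneous 10 := by
  rw [FP, dot_sum]
  apply IsHomogeneous.sum
  intro j _
  exact (isHomogeneous_X K j).mul (th_cv_hom ω P j)

/-- translation by multiples of `P` -/
noncomputable def tau (P : Fin 3 → K) :
    MvPolynomial (Fin 3) K →ₐ[K] Polynomial (MvPolynomial (Fin 3) K) :=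
  aeval fun j => Polynomial.C (X j) + Polynomial.X * Polynomial.C (C (P j))

lemma eval_tau (P x : Fin 3 → K) (s : K) (F : MvPolynomial (Fin 3) K) :
    (((tau P F).map (eval x)).eval s) = eval (fun j => x j + s * P j) F := by
  have h2 : ((Polynomial.evalRingHom s).comp ((Polynomial.mapRingHom (eval x)).comp
      (tau P).toRingHom)) = eval (fun j => x j + s * P j) := by
    apply MvPolynomial.ringHom_ext
    · intro r
      simp [tau]
    · intro i
      simp [tau]
      ring
  exact RingHom.congr_fun h2 F

lemma cr_trans {R : Type*} [CommRing R] (P x : Fin 3 → R) (s : R) :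
    cr P (fun j => x j + s * P j) = cr P x := by
  funext j
  fin_cases j <;> simp [cr] <;> ring

lemma tau_FP (ω : K) (P : Fin 3 → K) : tau P (FP ω P) = Polynomial.C (FP ω P) +
    Polynomial.X * Polynomial.C (dot (fun j => C (P j)) (th (C ω) (cv P))) := by
  have h0 : ∀ j, tau P (th (C ω) (cv P) j) = Polynomial.C (th (C ω) (cv P) j) := by
    intro j
    have h1 := map_th (tau P).toRingHom (C ω) (cv P) j
    have h2 := map_th (Polynomial.C : MvPolynomial (Fin 3) K →+* _) (C ω) (cv P) j
    rw [h2]
    refine Eq.trans h1 ?_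
    congr 1
    · simp [tau]
    · funext i
      have h3 := map_cr (tau P).toRingHom (fun j => C (P j)) X i
      have h4 := map_cr (Polynomial.C : MvPolynomial (Fin 3) K →+* _) (fun j => C (P j)) X i
      rw [cv, h4]
      refine Eq.trans h3 ?_
      rw [← cr_trans (fun i => Polynomial.C (C (P i))) (fun i => Polynomial.C (X i)) Polynomial.X]
      congr 1
      · funext l
        simp [tau]
      · funext l
        simp [tau]
  have h5 : tau P (FP ω P) = dot (fun j => tau P (X j)) (fun j => tau P (th (C ω) (cv P) j)) := by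
    rw [FP]
    exact map_dot (tau P).toRingHom _ _
  rw [h5]
  simp only [h0]
  have h6 : ∀ j, tau P (X j) = Polynomial.C (X j) + Polynomial.X * Polynomial.C (C (P j)) := by
    intro j
    simp [tau]
  simp only [h6, dot, FP, map_add, map_mul]
  ring

end Curve

end Pool.Agent.H880.Unexp
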