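import Mathlib

open MvPolynomial
open scoped LinearAlgebra.Projectivization

universe u

namespace Pool.Agent.H880.Unexp

variable {K : Type u} [Field K]

/-- The homogeneous ideal of a set `Z` of points of the projective plane: the ideal generated by
the forms that vanish at all points of `Z`. -/
noncomputable def idealOf (Z : Set (ℙ K (Fin 3 → K))) : Ideal (MvPolynomial (Fin 3) K) :=
  Ideal.span {F | (∃ n, F.IsHomogeneous n) ∧ ∀ p ∈ Z, eval p.rep F = 0}

/-- The ideal `I_{Z + mP} = I_Z ∩ I_P ^ m`. -/
noncomputable def fatIdeal (Z : Set (ℙ K (Fin 3 → K))) (m : ℕ) (P : ℙ K (Fin 3 → K)) :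
    Ideal (MvPolynomial (Fin 3) K) :=
  idealOf Z ⊓ idealOf {P} ^ m

/-- The vector space `[I]_d` of the forms of degree `d` in an ideal `I`. -/
noncomputable def degPart (I : Ideal (MvPolynomial (Fin 3) K)) (d : ℕ) :
    Submodule K (MvPolynomial (Fin 3) K) :=
  I.restrictScalars K ⊓ homogeneousSubmodule (Fin 3) K d

/-- A property holds for a general point `P` of the projective plane: it holds for all points
outside the zero set of some nonzero form. -/
def ForGeneral (p : ℙ K (Fin 3 → K) → Prop) : Prop :=
  ∃ (n : ℕ) (h : MvPolynomial (Fin 3) K), h.IsHomogeneous n ∧ h ≠ 0 ∧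
    ∀ P : ℙ K (Fin 3 → K), eval P.rep h ≠ 0 → p P

/-- `Z` admits an unexpected curve of degree `d` with multiplicity `m` at a general point: for a
general point `P`, `dim [I_{Z + mP}]_d > max {0, dim [I_Z]_d - binom (m + 1) 2}`. -/
def HasUnexpectedCurve (Z : Set (ℙ K (Fin 3 → K))) (d m : ℕ) : Prop :=
  ForGeneral fun P =>
    max 0 ((Module.finrank K (degPart (idealOf Z) d) : ℤ) - ((m + 1).choose 2 : ℤ)) <
      (Module.finrank K (degPart (fatIdeal Z m P) d) : ℤ)

/-- The general element of a linear space `V` of polynomials is irreducible: there is a polynomial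
`q` in the coefficients of `F` that does not vanish identically on `V` and such that the elements
`F` of `V` with `q(F) ≠ 0` are irreducible. -/
def GeneralIrreducible (V : Submodule K (MvPolynomial (Fin 3) K)) : Prop :=
  ∃ q : MvPolynomial (Fin 3 →₀ ℕ) K,
    (∃ F ∈ V, eval (fun e => coeff e F) q ≠ 0) ∧
      ∀ F ∈ V, eval (fun e => coeff e F) q ≠ 0 → Irreducible F

/-- `Z` has an irreducible unexpected curve of degree `d` with multiplicity `m` at a general
point. -/
def HasIrreducibleUnexpectedCurve (Z : Set (ℙ K (Fin 3 → K))) (d m : ℕ) : Prop :=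
  HasUnexpectedCurve Z d m ∧ ForGeneral fun P => GeneralIrreducible (degPart (fatIdeal Z m P) d)

/-- `Z'` shares the unexpected curve (of degree `d` with multiplicity `m` at a general point)
of `Z`. -/
def Shares (Z Z' : Set (ℙ K (Fin 3 → K))) (d m : ℕ) : Prop :=
  Z ⊆ Z' ∧ HasUnexpectedCurve Z' d m ∧
    ForGeneral fun P => degPart (fatIdeal Z' m P) d = degPart (fatIdeal Z m P) d

/-- The defining polynomial of the dual arrangement of `Z`: the product of the linear forms
`a X + b Y + c Z` over the points `[a : b : c]` of `Z`. -/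
noncomputable def dualPoly (Z : Finset (ℙ K (Fin 3 → K))) : MvPolynomial (Fin 3) K :=
  ∏ p ∈ Z, ∑ j, C (p.rep j) * X j

/-- The module `D = {θ | θ f ∈ f S}` of logarithmic derivations of `f`. -/
noncomputable def logDer (f : MvPolynomial (Fin 3) K) :
    Submodule (MvPolynomial (Fin 3) K)
      (Derivation K (MvPolynomial (Fin 3) K) (MvPolynomial (Fin 3) K)) where
  carrier := {θ | f ∣ θ f}
  add_mem' := by
    intro a b ha hb
    exact dvd_add ha hb
  zero_mem' := dvd_zero f
  smul_mem' := by
    intro c a ha
    exact Dvd.dvd.mul_left ha c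

/-- The dual arrangement of `Z` is free. -/
def DualFree (Z : Finset (ℙ K (Fin 3 → K))) : Prop :=
  Module.Free (MvPolynomial (Fin 3) K) (logDer (dualPoly Z))

end Pool.Agent.H880.Unexp
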