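import Mathlib
import Pool.Agent.H880.Unexp.Curve

open MvPolynomial

universe u

namespace Pool.Agent.H880.Unexp

open Pool.Agent.Helper413 Pool.Agent.Helper413.Split

section Irr

variable {K : Type u} [Field K]

/-- the general point -/
def Gen (ω h : K) (P : Fin 3 → K) : Prop := ∀ i, mm ω (cr P (zv ω h i)) ≠ 0

lemma mm_zero (ω : K) : mm ω (0 : Fin 3 → K) = 0 := by
  funext j
  fin_cases j <;> simp [mm, fT, fA, fp, fz, fq, fW, fd, fL]

lemma mm_smul' (ω s : K) (v : Fin 3 → K) : mm ω (fun i => v i * s) = fun j => mm ω v j * s ^ 10 :=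
  funext fun j => mm_smul ω s v j

/-- two vectors orthogonal to `t` have cross product proportional to `t` -/
lemma cr_par_of {P z t : Fin 3 → K} (ht : t ≠ 0) (h1 : dot P t = 0) (h2 : dot z t = 0) :
    ∃ c, ∀ j, cr P z j = t j * c := by
  obtain ⟨k, hk⟩ : ∃ k, t k ≠ 0 := by
    by_contra hcon
    push Not at hcon
    exact ht (funext hcon)
  refine ⟨cr P z k / t k, fun j => ?_⟩
  have h3 := cr_par (g := t) (a := P) (b := z) (by rw [← dot_sum]; exact h1)
    (by rw [← dot_sum]; exact h2) k j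
  field_simp
  linear_combination h3

lemma Gen.ne_zero {ω h : K} {P : Fin 3 → K} (hP : Gen ω h P) : P ≠ 0 := by
  rintro rfl
  apply hP 0
  have : cr (0 : Fin 3 → K) (zv ω h 0) = 0 := by
    funext j
    fin_cases j <;> simp [cr]
  rw [this, mm_zero]

lemma no_sing [CharZero K] {ω h : K} (hw : ω^2+ω+1=0) (hh : 2 * h = 1) {P : Fin 3 → K}
    (hP : Gen ω h P) {t : Fin 3 → K} (ht : t ≠ 0) (h1 : dot P t = 0) : mm ω t ≠ 0 := by
  intro h0
  obtain ⟨i, hi⟩ := sing_on ω h hw hh t h0
  obtain ⟨c, hc⟩ := cr_par_of ht h1 hi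
  apply hP i
  rw [funext hc, mm_smul', h0]
  funext j
  simp

lemma dot_cr_left {R : Type*} [CommRing R] (P x : Fin 3 → R) : dot P (cr P x) = 0 := by
  simp [dot, cr]
  ring

lemma dot_cr_right {R : Type*} [CommRing R] (P x : Fin 3 → R) : dot x (cr P x) = 0 := by
  simp [dot, cr]
  ring

lemma cr_cr {R : Type*} [CommRing R] (a b c : Fin 3 → R) :
    cr (cr a b) c = fun j => b j * dot a c - a j * dot b c := by
  funext j
  fin_cases j <;> simp [cr, dot] <;> ring

lemma dot_add_smul {R : Type*} [CommRing R] (x P t : Fin 3 → R) (s : R) :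
    dot (fun j => x j + s * P j) t = dot x t + s * dot P t := by
  simp [dot]
  ring

/-- no factor of positive degree of the curve is a union of lines through `P` -/
lemma no_inv [CharZero K] [IsAlgClosed K] {ω h : K} (hw : ω^2+ω+1=0) (hh : 2 * h = 1)
    {P : Fin 3 → K} (hP : Gen ω h P) {G : MvPolynomial (Fin 3) K} {n : ℕ} (hn : 1 ≤ n)
    (hG : G.IsHomogeneous n)
    (hinv : ∀ (x : Fin 3 → K) (s : K), eval (fun j => x j + s * P j) G = eval x G)
    (hdvd : G ∣ FP ω P) : False := by
  obtain ⟨x, hx, hx0⟩ := exists_zero_cr hG hn hP.ne_zero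
  have h1 : ∀ s : K, dot x (th ω (cr P x)) + s * dot P (th ω (cr P x)) = 0 := by
    intro s
    rw [← dot_add_smul, ← cr_trans P x s, ← eval_FP]
    obtain ⟨q, hq⟩ := hdvd
    rw [hq, map_mul, hinv, hx0, zero_mul]
  have h2 := h1 0
  have h3 := h1 1
  rw [zero_mul, add_zero] at h2
  rw [h2, zero_add, one_mul] at h3
  apply no_sing hw hh hP hx (dot_cr_left P x)
  rw [mm_eq, cr_cr, h2, h3]
  funext j
  simp

lemma FP_ne_zero [CharZero K] [IsAlgClosed K] {ω h : K} (hw : ω^2+ω+1=0) (hh : 2 * h = 1)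
    {P : Fin 3 → K} (hP : Gen ω h P) : FP ω P ≠ 0 := by
  intro h0
  refine no_inv hw hh hP (G := cv P 0) le_rfl (cv_hom P 0) ?_ ?_
  · intro x s
    have h1 : ∀ x : Fin 3 → K, eval x (cv P 0) = cr P x 0 := by
      intro x
      simp [cv, cr]
    rw [h1, h1, cr_trans]
  · rw [h0]
    exact dvd_zero _

lemma inv_of_tau {P : Fin 3 → K} {G : MvPolynomial (Fin 3) K} (hG : (tau P G).natDegree = 0)
    (x : Fin 3 → K) (s : K) : eval (fun j => x j + s * P j) G = eval x G := by
  have h1 := Polynomial.eq_C_of_natDegree_eq_zero hG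
  have h2 : ∀ s, eval (fun j => x j + s * P j) G = eval x ((tau P G).coeff 0) := by
    intro s
    rw [← eval_tau, h1]
    simp
  rw [h2, ← h2 0]
  simp

lemma tau_inj (P : Fin 3 → K) : Function.Injective (tau P) := by
  have h1 : ((Polynomial.evalRingHom (0 : MvPolynomial (Fin 3) K)).comp (tau P).toRingHom) =
      RingHom.id _ := by
    apply MvPolynomial.ringHom_ext
    · intro r
      simp [tau]
    · intro i
      simp [tau]
  intro F G hFG
  have h2 := RingHom.congr_fun h1 F
  have h3 := RingHom.congr_fun h1 G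
  rw [RingHom.id_apply] at h2 h3
  rw [← h2, ← h3]
  change Polynomial.evalRingHom 0 (tau P F) = Polynomial.evalRingHom 0 (tau P G)
  rw [hFG]

lemma unit_of_hom_zero {f : MvPolynomial (Fin 3) K} (hf : f.IsHomogeneous 0) (h0 : f ≠ 0) :
    IsUnit f := by
  have h1 : f.totalDegree = 0 := hf.totalDegree h0
  rw [totalDegree_eq_zero_iff_eq_C] at h1
  rw [h1]
  apply IsUnit.map
  rw [isUnit_iff_ne_zero]
  intro h2
  rw [h2, C_0] at h1
  exact h0 h1

lemma FP_irr [CharZero K] [IsAlgClosed K] {ω h : K} (hw : ω^2+ω+1=0) (hh : 2 * h = 1)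
    {P : Fin 3 → K} (hP : Gen ω h P) : Irreducible (FP ω P) := by
  have h0 := FP_ne_zero hw hh hP
  constructor
  · intro hu
    obtain ⟨G, hG⟩ := hu.exists_right_inv
    obtain ⟨a, b, ha, hb, hab⟩ := Quad.isHomogeneous_of_mul (f := FP ω P) (g := G) (n := 0)
      (by rw [hG]; exact one_ne_zero) (by rw [hG]; exact isHomogeneous_one _ _)
    have := ha.inj_right (FP_hom ω P) h0
    omega
  · intro G H hGH
    have hne : G * H ≠ 0 := hGH ▸ h0
    have hG0 : G ≠ 0 := left_ne_zero_of_mul hne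
    have hH0 : H ≠ 0 := right_ne_zero_of_mul hne
    obtain ⟨a, b, ha, hb, hab⟩ := Quad.isHomogeneous_of_mul hne (hGH ▸ FP_hom ω P)
    have h1 : (tau P (FP ω P)).natDegree ≤ 1 := by
      rw [tau_FP]
      refine (Polynomial.natDegree_add_le _ _).trans (max_le ?_ ?_)
      · rw [Polynomial.natDegree_C]
        omega
      · refine Polynomial.natDegree_mul_le.trans ?_
        rw [Polynomial.natDegree_C, Polynomial.natDegree_X]
    rw [hGH, map_mul, Polynomial.natDegree_mul
      (by rw [Ne, map_eq_zero_iff _ (tau_inj P)]; exact hG0)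
      (by rw [Ne, map_eq_zero_iff _ (tau_inj P)]; exact hH0)] at h1
    have h2 : (tau P G).natDegree = 0 ∨ (tau P H).natDegree = 0 := by omega
    rcases h2 with h2 | h2
    · left
      by_cases ha0 : a = 0
      · subst ha0
        exact unit_of_hom_zero ha hG0
      · exact (no_inv hw hh hP (by omega) ha (inv_of_tau h2) ⟨H, hGH⟩).elim
    · right
      by_cases hb0 : b = 0
      · subst hb0
        exact unit_of_hom_zero hb hH0
      · exact (no_inv hw hh hP (by omega) hb (inv_of_tau h2) ⟨G, by rw [hGH, mul_comm]⟩).elim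

end Irr

end Pool.Agent.H880.Unexp
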