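import Mathlib
import Pool.Agent.H880.Unexp.Classify

open MvPolynomial

universe u

namespace Pool.Agent.H880.Unexp

open Pool.Agent.Helper413 Pool.Agent.Helper413.Split

section Sep

/-- separating forms of degree `10` -/
def sp {R : Type*} [CommRing R] (ω : R) (j : Fin 21) (v : Fin 3 → R) : R :=
  (![v 0 ^ 10, v 1 ^ 10, v 0 ^ 5 * v 1 ^ 5, v 0 ^ 8 * v 1 * (v 0 - v 1),
    v 0 ^ 7 * v 1 * (v 0 - v 1) * (v 0 + v 1),
    v 0 ^ 6 * v 1 * (v 0 - v 1) * (v 0 + v 1) * (2 * v 0 - v 1),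
    v 0 ^ 5 * v 1 * (v 0 - v 1) * (v 0 + v 1) * (2 * v 0 - v 1) * (v 0 - 2 * v 1),
    v 0 ^ 4 * v 1 * (v 0 - v 1) * (v 0 + v 1) * (2 * v 0 - v 1) * (v 0 - 2 * v 1) *
      (ω * v 0 + v 1),
    v 2 ^ 10,
    v 0 ^ 9 * v 2, v 0 ^ 8 * v 2 * (v 0 + v 2), v 0 ^ 7 * v 2 * (v 0 + v 2) * (v 0 - v 2),
    v 0 ^ 6 * v 2 * (v 0 + v 2) * (v 0 - v 2) * (ω * v 0 + v 2),
    v 1 ^ 9 * v 2, v 1 ^ 8 * v 2 * (v 1 + v 2), v 1 ^ 7 * v 2 * (v 1 + v 2) * (v 1 - v 2),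
    v 1 ^ 6 * v 2 * (v 1 + v 2) * (v 1 - v 2) * (ω * v 1 + v 2),
    v 0 ^ 8 * v 1 * v 2, v 0 ^ 7 * v 1 * v 2 * (v 0 + v 2),
    v 0 ^ 6 * v 1 * v 2 * (v 0 + v 2) * (v 0 - v 2),
    v 0 ^ 5 * v 1 * v 2 * (v 0 + v 2) * (v 0 - v 2) * (ω * v 0 + v 2)] : Fin 21 → R) j

lemma map_sp {R R' : Type*} [CommRing R] [CommRing R'] (f : R →+* R') (ω : R) (j : Fin 21)
    (v : Fin 3 → R) : f (sp ω j v) = sp (f ω) j (fun i => f (v i)) := by
  fin_cases j <;> simp [sp, map_ofNat]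

lemma sp_smul {R : Type*} [CommRing R] (ω s : R) (j : Fin 21) (v : Fin 3 → R) :
    sp ω j (fun i => v i * s) = sp ω j v * s ^ 10 := by
  fin_cases j <;> simp [sp] <;> ring

variable {K : Type u} [Field K]

lemma sp_lt {ω h : K} (hh : 2 * h = 1) (j i : Fin 21) (hij : i < j) :
    sp ω j (zv ω h i) = 0 := by
  fin_cases j <;> fin_cases i <;> first
    | exact absurd hij (by decide)
    | (simp [sp, zv]; done)
    | (simp [sp, zv]; grind)

lemma sp_self [CharZero K] {ω h : K} (hw : ω^2+ω+1=0) (hh : 2 * h = 1) (j : Fin 21) :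
    sp ω j (zv ω h j) ≠ 0 := by
  have w0 : ω ≠ 0 := by
    rintro rfl
    simp at hw
  have w1 : 1 + ω ≠ 0 := by
    intro h0
    apply w0
    have : ω^2 + (1 + ω) = 0 := by linear_combination hw
    rw [h0, add_zero] at this
    exact pow_eq_zero_iff (two_ne_zero) |>.1 this
  have w2 : 1 - ω ≠ 0 := by
    intro h0
    have h1 : ω = 1 := by linear_combination -h0
    rw [h1] at hw
    norm_num at hw
  have w3 : (2 : K) + ω ≠ 0 := by
    have := nz hw (a := 2) (b := 1) (by norm_num)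
    rwa [one_mul] at this
  have w4 : (1 : K) + 2 * ω ≠ 0 := nz hw (a := 1) (b := 2) (by norm_num)
  have w5 : ω ^ 3 = 1 := by linear_combination (ω - 1) * hw
  fin_cases j
  · simp [sp, zv]
  · simp [sp, zv]
  · simp [sp, zv]
  · norm_num [sp, zv]
  · norm_num [sp, zv]
  · have e : sp ω 5 (zv ω h 5) = 9 / 16 := by
      have : h = 1 / 2 := by linear_combination hh / 2
      simp [sp, zv, this]
      norm_num
    change sp ω 5 (zv ω h 5) ≠ 0
    rw [e]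
    norm_num
  · have e : sp ω 6 (zv ω h 6) = -(ω * (1 + ω) * (1 - ω) * (2 + ω) * (1 + 2 * ω)) := by
      simp only [sp, zv, Matrix.cons_val]
      ring
    change sp ω 6 (zv ω h 6) ≠ 0
    rw [e]
    exact neg_ne_zero.2 (mul_ne_zero (mul_ne_zero (mul_ne_zero (mul_ne_zero w0 w1) w2) w3) w4)
  · have e : sp ω 7 (zv ω h 7) = ω * (1 + ω) * (1 - ω) * (2 + ω) * (1 + 2 * ω)^2 := by
      simp only [sp, zv, Matrix.cons_val]
      ring
    change sp ω 7 (zv ω h 7) ≠ 0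
    rw [e]
    exact (mul_ne_zero (mul_ne_zero (mul_ne_zero (mul_ne_zero w0 w1) w2) w3) (pow_ne_zero 2 w4))
  · simp [sp, zv]
  · simp [sp, zv]
  · simp [sp, zv]
  · have e : sp ω 11 (zv ω h 11) = -(ω * (1 - ω) * (1 + ω)) := by
      simp only [sp, zv, Matrix.cons_val]
      ring
    change sp ω 11 (zv ω h 11) ≠ 0
    rw [e]
    exact neg_ne_zero.2 (mul_ne_zero (mul_ne_zero w0 w2) w1)
  · have e : sp ω 12 (zv ω h 12) = 2 * ω ^ 2 * (1 - ω) * (1 + ω) := by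
      simp only [sp, zv, Matrix.cons_val]
      ring
    change sp ω 12 (zv ω h 12) ≠ 0
    rw [e]
    exact (mul_ne_zero (mul_ne_zero (mul_ne_zero two_ne_zero (pow_ne_zero 2 w0)) w2) w1)
  · simp [sp, zv]
  · simp [sp, zv]
  · have e : sp ω 15 (zv ω h 15) = -(ω * (1 - ω) * (1 + ω)) := by
      simp only [sp, zv, Matrix.cons_val]
      ring
    change sp ω 15 (zv ω h 15) ≠ 0
    rw [e]
    exact neg_ne_zero.2 (mul_ne_zero (mul_ne_zero w0 w2) w1)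
  · have e : sp ω 16 (zv ω h 16) = 2 * ω ^ 2 * (1 - ω) * (1 + ω) := by
      simp only [sp, zv, Matrix.cons_val]
      ring
    change sp ω 16 (zv ω h 16) ≠ 0
    rw [e]
    exact (mul_ne_zero (mul_ne_zero (mul_ne_zero two_ne_zero (pow_ne_zero 2 w0)) w2) w1)
  · simp [sp, zv]
  · simp [sp, zv]
  · have e : sp ω 19 (zv ω h 19) = -(ω * (1 - ω) * (1 + ω)) := by
      simp only [sp, zv, Matrix.cons_val]
      ring
    change sp ω 19 (zv ω h 19) ≠ 0
    rw [e]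
    exact neg_ne_zero.2 (mul_ne_zero (mul_ne_zero w0 w2) w1)
  · have e : sp ω 20 (zv ω h 20) = 2 * ω ^ 2 * (1 - ω) * (1 + ω) := by
      simp only [sp, zv, Matrix.cons_val]
      ring
    change sp ω 20 (zv ω h 20) ≠ 0
    rw [e]
    exact (mul_ne_zero (mul_ne_zero (mul_ne_zero two_ne_zero (pow_ne_zero 2 w0)) w2) w1)

end Sep

end Pool.Agent.H880.Unexp
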