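import Mathlib
import Pool.Agent.H880.Unexp.Defs
import Pool.Agent.H880.Unexp.Irr
import Pool.Agent.H880.Unexp.Sep

open MvPolynomial
open scoped LinearAlgebra.Projectivization

universe u

namespace Pool.Agent.H880.Unexp

open Pool.Agent.Helper413 Pool.Agent.Helper413.Split

section Fat

variable {K : Type u} [Field K]

lemma eval_of_mem {Z : Set (ℙ K (Fin 3 → K))} {F : MvPolynomial (Fin 3) K} (hF : F ∈ idealOf Z)
    {p : ℙ K (Fin 3 → K)} (hp : p ∈ Z) : eval p.rep F = 0 := by
  have h1 : idealOf Z ≤ RingHom.ker (eval p.rep) := by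
    rw [idealOf, Ideal.span_le]
    rintro G ⟨-, hG⟩
    exact hG p hp
  exact h1 hF

lemma mem_of_eval {Z : Set (ℙ K (Fin 3 → K))} {F : MvPolynomial (Fin 3) K} {n : ℕ}
    (hF : F.IsHomogeneous n) (h : ∀ p ∈ Z, eval p.rep F = 0) : F ∈ idealOf Z :=
  Ideal.subset_span ⟨⟨n, hF⟩, h⟩

lemma cv_mem (P : ℙ K (Fin 3 → K)) (j : Fin 3) : cv P.rep j ∈ idealOf {P} := by
  apply mem_of_eval (cv_hom _ j)
  rintro p rfl
  rw [cv, map_cr]
  fin_cases j <;> simp [cr] <;> ring

lemma FP_mem (ω : K) (P : ℙ K (Fin 3 → K)) : FP ω P.rep ∈ idealOf {P} ^ 9 := by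
  rw [FP, dot_sum]
  apply Ideal.sum_mem
  intro j _
  apply Ideal.mul_mem_left
  have h1 : Ideal.span (Set.range (cv P.rep)) ≤ idealOf {P} := by
    rw [Ideal.span_le]
    rintro _ ⟨i, rfl⟩
    exact cv_mem P i
  apply Ideal.pow_right_mono h1
  rw [Ideal.mem_span_pow_iff_exists_isHomogeneous]
  refine ⟨map C (tp ω j), (tp_hom ω j).map _, ?_⟩
  rw [eval_map, th_cv, aeval_def]
  rfl

/-- the restriction of an element of `I_P ^ 9` of degree `10` to a line through `P` -/
lemma star {P : ℙ K (Fin 3 → K)} [Infinite K] {F : MvPolynomial (Fin 3) K} (hF : F ∈ idealOf {P} ^ 9)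
    (hF10 : F.IsHomogeneous 10) (x : Fin 3 → K) (s : K) :
    eval (fun j => x j + s * P.rep j) F =
      eval x F + s * (eval (fun j => x j + P.rep j) F - eval x F) := by
  let g : MvPolynomial (Fin 3) K →ₐ[K] Polynomial K :=
    aeval (fun j => Polynomial.C (P.rep j) + Polynomial.X * Polynomial.C (x j))
  let m : MvPolynomial (Fin 3) K →ₐ[K] Polynomial K :=
    aeval (fun j => Polynomial.C (x j) + Polynomial.X * Polynomial.C (P.rep j))
  have hg : ∀ (r : K) G, (g G).eval r = eval (fun j => P.rep j + r * x j) G := by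
    intro r G
    have h2 : ((Polynomial.evalRingHom r).comp g.toRingHom)
        = eval (fun j => P.rep j + r * x j) := by
      apply MvPolynomial.ringHom_ext
      · intro r
        simp [g]
      · intro i
        simp [g]
        ring
    exact RingHom.congr_fun h2 G
  have hm : ∀ (r : K) G, (m G).eval r = eval (fun j => x j + r * P.rep j) G := by
    intro r G
    have h2 : ((Polynomial.evalRingHom r).comp m.toRingHom)
        = eval (fun j => x j + r * P.rep j) := by
      apply MvPolynomial.ringHom_ext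
      · intro r
        simp [m]
      · intro i
        simp [m]
        ring
    exact RingHom.congr_fun h2 G
  have h1 : idealOf {P} ≤ (Ideal.span {(Polynomial.X : Polynomial K)}).comap g.toRingHom := by
    rw [idealOf, Ideal.span_le]
    rintro G ⟨-, hG⟩
    have h2 := hG P rfl
    rw [SetLike.mem_coe, Ideal.mem_comap, Ideal.mem_span_singleton, Polynomial.X_dvd_iff,
      Polynomial.coeff_zero_eq_eval_zero]
    change (g G).eval 0 = 0
    rw [hg]
    exact (ev_congr fun j => by ring).trans h2
  have h2 : g F ∈ Ideal.span {(Polynomial.X : Polynomial K)} ^ 9 := by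
    have h3 := Ideal.pow_right_mono h1 9 hF
    have h4 := Ideal.le_comap_pow g.toRingHom 9 h3
    exact h4
  rw [Ideal.span_singleton_pow, Ideal.mem_span_singleton] at h2
  obtain ⟨q, hq⟩ := h2
  have hq1 : q.natDegree ≤ 1 := by
    by_cases hq0 : q = 0
    · rw [hq0]
      simp
    have h3 : (g F).natDegree ≤ 10 * 1 := by
      apply aeval_natDegree_le
      · exact hF10.totalDegree_le
      · intro i
        refine (Polynomial.natDegree_add_le _ _).trans (max_le ?_ ?_)
        · rw [Polynomial.natDegree_C]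
          omega
        · refine Polynomial.natDegree_mul_le.trans ?_
          rw [Polynomial.natDegree_C, Polynomial.natDegree_X]
    rw [hq, Polynomial.natDegree_mul (pow_ne_zero 9 Polynomial.X_ne_zero) hq0,
      Polynomial.natDegree_X_pow] at h3
    omega
  have hq2 := Polynomial.eq_X_add_C_of_natDegree_le_one hq1
  have h3 : Polynomial.X * m F = Polynomial.X * (Polynomial.C (q.coeff 0) * Polynomial.X +
      Polynomial.C (q.coeff 1)) := by
    apply Polynomial.funext
    intro r
    by_cases hr : r = 0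
    · rw [hr]
      simp
    · have h4 : (m F).eval r = (g F).eval r⁻¹ * r ^ 10 := by
        rw [hm, hg, ← hom_eval_smul hF10]
        apply ev_congr
        intro j
        field_simp
        ring
      rw [Polynomial.eval_mul, h4, hq, Polynomial.eval_mul, hq2]
      simp only [Polynomial.eval_X, Polynomial.eval_pow, Polynomial.eval_add, Polynomial.eval_mul,
        Polynomial.eval_C, Polynomial.coeff_add, Polynomial.coeff_C_mul, Polynomial.coeff_X_zero,
        Polynomial.coeff_X_one, Polynomial.coeff_C_zero, Polynomial.coeff_C_succ]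
      field_simp
      ring
  have h4 : m F = Polynomial.C (q.coeff 0) * Polynomial.X + Polynomial.C (q.coeff 1) :=
    mul_left_cancel₀ Polynomial.X_ne_zero h3
  have h5 : ∀ r, eval (fun j => x j + r * P.rep j) F = q.coeff 0 * r + q.coeff 1 := by
    intro r
    rw [← hm, h4]
    simp
  have h6 : eval x F = q.coeff 1 := by
    have := h5 0
    rw [mul_zero, zero_add] at this
    rw [← this]
    exact ev_congr fun j => by ring
  have h7 : eval (fun j => x j + P.rep j) F = q.coeff 0 + q.coeff 1 := by
    have := h5 1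
    rw [mul_one] at this
    rw [← this]
    exact ev_congr fun j => by ring
  rw [h5, h6, h7]
  ring

lemma dot_comm' {R : Type*} [CommRing R] (a b : Fin 3 → R) : dot a b = dot b a := by
  simp [dot]
  ring

lemma in_span {P z t : Fin 3 → K} (hn : cr P z ≠ 0) (ht : dot (cr P z) t = 0) :
    ∃ a b, ∀ j, t j = b * z j + a * P j := by
  obtain ⟨k, hk⟩ : ∃ k, cr P z k ≠ 0 := by
    by_contra hcon
    push Not at hcon
    exact hn (funext hcon)
  refine ⟨cr t z k / cr P z k, cr P t k / cr P z k, fun j => ?_⟩
  field_simp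
  fin_cases k <;> fin_cases j <;> simp [cr, dot] at ht ⊢ <;> grind

variable [CharZero K]

lemma zv_cr_ne {ω h : K} (hw : ω^2+ω+1=0) (hh : 2 * h = 1) {i j : Fin 21} (hij : i ≠ j) :
    cr (zv ω h i) (zv ω h j) ≠ 0 := by
  have key : ∀ i j : Fin 21, i < j → cr (zv ω h i) (zv ω h j) ≠ 0 := by
    intro i j hij h0
    obtain ⟨k, hk⟩ : ∃ k, zv ω h i k ≠ 0 := by
      by_contra hcon
      push Not at hcon
      exact zv_ne_zero ω h i (funext hcon)
    have h1 : zv ω h j = fun l => zv ω h i l * (zv ω h j k / zv ω h i k) := by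
      funext l
      have e0 := congrFun h0 0
      have e1 := congrFun h0 1
      have e2 := congrFun h0 2
      simp [cr] at e0 e1 e2
      field_simp
      fin_cases k <;> fin_cases l <;> simp at hk ⊢ <;> grind
    have h2 := sp_self hw hh j
    rw [h1, sp_smul, sp_lt hh j i hij, zero_mul] at h2
    exact h2 rfl
  rcases lt_or_gt_of_ne hij with h1 | h1
  · exact key i j h1
  · intro h0
    apply key j i h1
    funext l
    have e0 := congrFun h0 0
    have e1 := congrFun h0 1
    have e2 := congrFun h0 2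
    simp [cr] at e0 e1 e2
    fin_cases l <;> simp [cr] <;> grind

/-- the intersection point of two of the lines is a singular point -/
lemma mm_inter {ω h : K} (hw : ω^2+ω+1=0) (hh : 2 * h = 1) {i j : Fin 21} (hij : i ≠ j)
    {t : Fin 3 → K} (hi : dot (zv ω h i) t = 0) (hj : dot (zv ω h j) t = 0) : mm ω t = 0 := by
  have hn := zv_cr_ne hw hh hij
  obtain ⟨k, hk⟩ : ∃ k, cr (zv ω h i) (zv ω h j) k ≠ 0 := by
    by_contra hcon
    push Not at hcon
    exact hn (funext hcon)
  have h1 := inv_line ω h hw hh i t hi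
  have h2 := inv_line ω h hw hh j t hj
  rw [mm_eq]
  have h3 := fun l => cr_par (g := t) (a := zv ω h i) (b := zv ω h j)
    (by rw [← dot_sum]; exact hi) (by rw [← dot_sum]; exact hj) k l
  have h4 := fun l => cr_par (g := th ω t) (a := zv ω h i) (b := zv ω h j)
    (by rw [← dot_sum]; exact h1) (by rw [← dot_sum]; exact h2) k l
  have h5 : ∀ l, t l = t k / cr (zv ω h i) (zv ω h j) k * cr (zv ω h i) (zv ω h j) l := by
    intro l
    field_simp
    linear_combination -h3 l
  have h6 : ∀ l, th ω t l = th ω t k / cr (zv ω h i) (zv ω h j) k * cr (zv ω h i) (zv ω h j) l := by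
    intro l
    field_simp
    linear_combination -h4 l
  funext l
  fin_cases l <;> simp only [cr] <;> simp only [Fin.zero_eta, Fin.mk_one, Fin.reduceFinMk,
    Matrix.cons_val, Pi.zero_apply]
  · rw [h5 1, h5 2, h6 1, h6 2]
    ring
  · rw [h5 0, h5 2, h6 0, h6 2]
    ring
  · rw [h5 0, h5 1, h6 0, h6 1]
    ring

omit [CharZero K] in
lemma prod_dvd_of_primes {ι : Type*} [DecidableEq ι] (s : Finset ι)
    (f : ι → MvPolynomial (Fin 3) K) (G : MvPolynomial (Fin 3) K) (hp : ∀ i ∈ s, Prime (f i))
    (hn : ∀ i ∈ s, ∀ j ∈ s, i ≠ j → ¬ f i ∣ f j) (hd : ∀ i ∈ s, f i ∣ G) : ∏ i ∈ s, f i ∣ G := by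
  induction s using Finset.induction_on with
  | empty => simp
  | insert a s ha ih =>
    obtain ⟨q, hq⟩ := ih (fun i hi => hp i (Finset.mem_insert_of_mem hi))
      (fun i hi j hj => hn i (Finset.mem_insert_of_mem hi) j (Finset.mem_insert_of_mem hj))
      (fun i hi => hd i (Finset.mem_insert_of_mem hi))
    have h1 := hd a (Finset.mem_insert_self a s)
    have hpa := hp a (Finset.mem_insert_self a s)
    rw [hq] at h1
    rcases hpa.dvd_or_dvd h1 with h2 | h2
    · exfalso
      rw [hpa.dvd_finsetProd_iff] at h2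
      obtain ⟨j, hj, h3⟩ := h2
      exact hn a (Finset.mem_insert_self a s) j (Finset.mem_insert_of_mem hj)
        (by rintro rfl; exact ha hj) h3
    · obtain ⟨r, hr⟩ := h2
      rw [Finset.prod_insert ha]
      exact ⟨r, by rw [hq, hr]; ring⟩

omit [CharZero K] in
lemma lf_not_dvd {a b t : Fin 3 → K} (h1 : dot a t = 0) (h2 : dot b t ≠ 0) : ¬ lf a ∣ lf b := by
  intro h
  apply h2
  rw [← eval_lf]
  exact lf_dvd_eval h1 h

omit [CharZero K] in
lemma totalDegree_tr (a : Fin 3 → K) (G : MvPolynomial (Fin 3) K) :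
    (aeval (R := K) (fun j => X j + C (a j)) G : MvPolynomial (Fin 3) K).totalDegree ≤
      G.totalDegree := by
  rw [aeval_def, eval₂_eq']
  apply totalDegree_finsetSum_le
  intro d hd
  refine (totalDegree_mul _ _).trans ?_
  rw [algebraMap_eq, totalDegree_C, zero_add]
  refine (totalDegree_finsetProd _ _).trans ?_
  have h1 : ∀ i : Fin 3, ((X i + C (a i) : MvPolynomial (Fin 3) K) ^ d i).totalDegree ≤ d i := by
    intro i
    refine (totalDegree_pow _ _).trans ?_
    have h2 : (X i + C (a i) : MvPolynomial (Fin 3) K).totalDegree ≤ 1 := by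
      refine (totalDegree_add _ _).trans (max_le ?_ ?_)
      · rw [totalDegree_X]
      · rw [totalDegree_C]
        omega
    calc d i * (X i + C (a i) : MvPolynomial (Fin 3) K).totalDegree ≤ d i * 1 :=
          Nat.mul_le_mul_left _ h2
      _ = d i := mul_one _
  refine (Finset.sum_le_sum fun i _ => h1 i).trans ?_
  have h3 := le_totalDegree hd
  rwa [Finsupp.sum_fintype _ _ (fun _ => rfl)] at h3

lemma unique [IsAlgClosed K] {ω h : K} (hw : ω^2+ω+1=0) (hh : 2 * h = 1) {P : ℙ K (Fin 3 → K)}
    (hP : Gen ω h P.rep) {F : MvPolynomial (Fin 3) K} (hF9 : F ∈ idealOf {P} ^ 9)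
    (hF10 : F.IsHomogeneous 10) (hF : ∀ i, eval (zv ω h i) F = 0) :
    ∃ c, F = C c * FP ω P.rep := by
  have hinf : Infinite K := inferInstance
  have hI := FP_irr hw hh hP
  have h0 := FP_hom ω P.rep
  let tr : MvPolynomial (Fin 3) K →ₐ[K] MvPolynomial (Fin 3) K := aeval fun j => X j + C (P.rep j)
  have htr : ∀ x G, eval x (tr G) = eval (fun j => x j + P.rep j) G := by
    intro x G
    have h2 : ((eval x).comp tr.toRingHom) = eval (fun j => x j + P.rep j) := by
      apply MvPolynomial.ringHom_ext
      · intro r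
        simp [tr]
      · intro i
        simp [tr]
    exact RingHom.congr_fun h2 G
  let A := tr (FP ω P.rep) - FP ω P.rep
  let A' := tr F - F
  have s1 : ∀ (x : Fin 3 → K) (s : K), eval (fun j => x j + s * P.rep j) (FP ω P.rep) =
      eval x (FP ω P.rep) + s * eval x A := by
    intro x s
    rw [star (FP_mem ω P) h0, map_sub, htr]
  have s2 : ∀ (x : Fin 3 → K) (s : K), eval (fun j => x j + s * P.rep j) F =
      eval x F + s * eval x A' := by
    intro x s
    rw [star hF9 hF10, map_sub, htr]
  have s3 : ∀ (x : Fin 3 → K) (s : K), eval (fun j => x j + s * P.rep j) A = eval x A := by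
    intro x s
    have e0 := s1 x s
    have e1 := s1 x (s + 1)
    have e2 := s1 (fun j => x j + s * P.rep j) 1
    have e3 : eval (fun j => x j + (s + 1) * P.rep j) (FP ω P.rep) =
        eval (fun j => x j + s * P.rep j + 1 * P.rep j) (FP ω P.rep) :=
      ev_congr fun j => by ring
    linear_combination -e2 + e1 - e3 - e0
  have s4 : ∀ (x : Fin 3 → K) (s : K), eval (fun j => x j + s * P.rep j) A' = eval x A' := by
    intro x s
    have e0 := s2 x s
    have e1 := s2 x (s + 1)
    have e2 := s2 (fun j => x j + s * P.rep j) 1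
    have e3 : eval (fun j => x j + (s + 1) * P.rep j) F =
        eval (fun j => x j + s * P.rep j + 1 * P.rep j) F :=
      ev_congr fun j => by ring
    linear_combination -e2 + e1 - e3 - e0
  have hFP : ∀ i, eval (zv ω h i) (FP ω P.rep) = 0 := by
    intro i
    rw [eval_FP]
    exact inv_line ω h hw hh i _ (dot_cr_right _ _)
  have hA0 : A ≠ 0 := by
    intro hA0
    refine no_inv hw hh hP (G := FP ω P.rep) (n := 10) (by norm_num) h0 ?_ dvd_rfl
    intro x s
    rw [s1, hA0, map_zero, mul_zero, add_zero]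
  have htd : ∀ G : MvPolynomial (Fin 3) K, G.IsHomogeneous 10 →
      (tr G - G).totalDegree ≤ 10 := by
    intro G hG
    refine (totalDegree_sub _ _).trans (max_le ?_ hG.totalDegree_le)
    exact (totalDegree_tr _ _).trans hG.totalDegree_le
  have hdeg : (A * F - A' * FP ω P.rep).totalDegree ≤ 20 := by
    refine (totalDegree_sub _ _).trans (max_le ?_ ?_)
    · refine (totalDegree_mul _ _).trans ?_
      have h1 := htd _ h0
      have h2 := hF10.totalDegree_le
      change A.totalDegree ≤ 10 at h1
      omega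
    · refine (totalDegree_mul _ _).trans ?_
      have h1 := htd _ hF10
      have h2 := h0.totalDegree_le
      change A'.totalDegree ≤ 10 at h1
      omega
  have hn0 : ∀ i, cr P.rep (zv ω h i) ≠ 0 := by
    intro i h1
    apply hP i
    rw [h1, mm_zero]
  have hlines : ∀ i, lf (cr P.rep (zv ω h i)) ∣ A * F - A' * FP ω P.rep := by
    intro i
    apply lf_dvd (hn0 i)
    intro t ht
    obtain ⟨a, b, hab⟩ := in_span (hn0 i) ht
    have e1 : eval t F = eval (fun j => b * zv ω h i j) F +
        a * eval (fun j => b * zv ω h i j) A' := by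
      rw [← s2]
      exact ev_congr hab
    have e2 : eval t (FP ω P.rep) = eval (fun j => b * zv ω h i j) (FP ω P.rep) +
        a * eval (fun j => b * zv ω h i j) A := by
      rw [← s1]
      exact ev_congr hab
    have e3 : eval t A = eval (fun j => b * zv ω h i j) A := by
      rw [← s3 (fun j => b * zv ω h i j) a]
      exact ev_congr hab
    have e4 : eval t A' = eval (fun j => b * zv ω h i j) A' := by
      rw [← s4 (fun j => b * zv ω h i j) a]
      exact ev_congr hab
    have e5 : eval (fun j => b * zv ω h i j) F = 0 := by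
      rw [ev_congr (g := fun j => zv ω h i j * b) (fun j => mul_comm _ _), hom_eval_smul hF10, hF,
        zero_mul]
    have e6 : eval (fun j => b * zv ω h i j) (FP ω P.rep) = 0 := by
      rw [ev_congr (g := fun j => zv ω h i j * b) (fun j => mul_comm _ _), hom_eval_smul h0, hFP,
        zero_mul]
    rw [map_sub, map_mul, map_mul, e1, e2, e3, e4, e5, e6]
    ring
  have hG : A * F - A' * FP ω P.rep = 0 := by
    by_contra hne
    have h1 : ∏ i, lf (cr P.rep (zv ω h i)) ∣ A * F - A' * FP ω P.rep := by
      apply prod_dvd_of_primes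
      · exact fun i _ => lf_prime (hn0 i)
      · intro i _ j _ hij
        apply lf_not_dvd (t := zv ω h i)
        · rw [dot_comm']
          exact dot_cr_right _ _
        · intro h2
          have h3 : dot (zv ω h i) (cr P.rep (zv ω h j)) = 0 := by
            rw [dot_comm']
            exact h2
          exact hP j (mm_inter hw hh hij h3 (dot_cr_right _ _))
      · exact fun i _ => hlines i
    obtain ⟨q, hq⟩ := h1
    have hq0 : q ≠ 0 := by
      rintro rfl
      exact hne (by rw [hq, mul_zero])
    have h2 : (∏ i, lf (cr P.rep (zv ω h i))).IsHomogeneous 21 := by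
      have h3 : (∏ i, lf (cr P.rep (zv ω h i))).IsHomogeneous (∑ i : Fin 21, 1) :=
        IsHomogeneous.prod _ _ _ fun i _ => lf_hom _
      simpa using h3
    have h3 : ∏ i, lf (cr P.rep (zv ω h i)) ≠ 0 :=
      Finset.prod_ne_zero_iff.2 fun i _ => lf_ne_zero (hn0 i)
    rw [hq, totalDegree_mul_of_isDomain h3 hq0, h2.totalDegree h3] at hdeg
    omega
  have h1 : FP ω P.rep ∣ A * F := ⟨A', by linear_combination hG⟩
  rcases hI.prime.dvd_or_dvd h1 with h2 | h2
  · exfalso
    obtain ⟨q, hq⟩ := h2
    have hq0 : q ≠ 0 := by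
      rintro rfl
      exact hA0 (by rw [hq, mul_zero])
    have h3 : A.totalDegree ≤ 10 := htd _ h0
    rw [hq, totalDegree_mul_of_isDomain hI.ne_zero hq0, h0.totalDegree hI.ne_zero] at h3
    have h4 : q = C (coeff 0 q) := (totalDegree_eq_zero_iff_eq_C).1 (by omega)
    have h5 : coeff 0 q ≠ 0 := by
      intro h6
      rw [h6, C_0] at h4
      exact hq0 h4
    refine no_inv hw hh hP (G := FP ω P.rep) (n := 10) (by norm_num) h0 ?_ dvd_rfl
    intro x s
    have h6 := s3 x s
    rw [hq, h4, map_mul, map_mul, eval_C, eval_C] at h6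
    exact mul_right_cancel₀ h5 h6
  · obtain ⟨q, hq⟩ := h2
    by_cases hq0 : q = 0
    · exact ⟨0, by rw [hq, hq0]; simp⟩
    have h3 : F.totalDegree ≤ 10 := hF10.totalDegree_le
    rw [hq, totalDegree_mul_of_isDomain hI.ne_zero hq0, h0.totalDegree hI.ne_zero] at h3
    have h4 : q = C (coeff 0 q) := (totalDegree_eq_zero_iff_eq_C).1 (by omega)
    exact ⟨coeff 0 q, by rw [hq, mul_comm]; congr 1⟩

end Fat

end Pool.Agent.H880.Unexp
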