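import Mathlib
import Pool.Agent.H880.Unexp.Defs
import Pool.Agent.H880.Unexp.Fat
import Pool.Graph.R_seed8.Helper413.Split.Line

open MvPolynomial
open scoped LinearAlgebra.Projectivization

universe u

namespace Pool.Agent.H880.Unexp

open Pool.Agent.Helper413 Pool.Agent.Helper413.Split

section Der

variable {K : Type u} [Field K] [CharZero K]

/-- the components of a derivation -/
noncomputable def vec (φ : Derivation K (MvPolynomial (Fin 3) K) (MvPolynomial (Fin 3) K)) :
    Fin 3 → MvPolynomial (Fin 3) K := fun j => φ (X j)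

/-- the vector of constants -/
noncomputable def cc (z : Fin 3 → K) : Fin 3 → MvPolynomial (Fin 3) K := fun j => C (z j)

omit [CharZero K] in
lemma der_lf (φ : Derivation K (MvPolynomial (Fin 3) K) (MvPolynomial (Fin 3) K))
    (z : Fin 3 → K) : φ (lf z) = dot (cc z) (vec φ) := by
  rw [lf, map_sum, dot_sum]
  apply Finset.sum_congr rfl
  intro j _
  rw [Derivation.leibniz, ← algebraMap_eq, Derivation.map_algebraMap, smul_zero, add_zero]
  rfl

/-- the product of the linear forms -/
noncomputable def f0 (ω h : K) : MvPolynomial (Fin 3) K := ∏ i, lf (zv ω h i)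

omit [CharZero K] in
lemma f0_hom (ω h : K) : (f0 ω h).IsHomogeneous 21 := by
  have h3 : (∏ i, lf (zv ω h i)).IsHomogeneous (∑ i : Fin 21, 1) :=
    IsHomogeneous.prod _ _ _ fun i _ => lf_hom _
  rw [f0]
  simpa using h3

lemma f0_ne_zero (ω h : K) : f0 ω h ≠ 0 :=
  Finset.prod_ne_zero_iff.2 fun i _ => lf_ne_zero (zv_ne_zero ω h i)

lemma lf_zv_not_dvd {ω h : K} (hw : ω^2+ω+1=0) (hh : 2 * h = 1) {i j : Fin 21} (hij : i ≠ j) :
    ¬ lf (zv ω h i) ∣ lf (zv ω h j) := by
  have h1 := zv_cr_ne hw hh hij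
  intro h2
  apply h1
  have h3 : ∀ p : Fin 3 → K, dot (zv ω h j) (cr (zv ω h i) p) = 0 := by
    intro p
    rw [← eval_lf]
    exact lf_dvd_eval (dot_cr_left _ _) h2
  funext k
  have h4 := h3 (Pi.single k 1)
  fin_cases k
  · simp [cr, dot] at h4 ⊢
    linear_combination -h4
  · simp [cr, dot] at h4 ⊢
    linear_combination -h4
  · simp [cr, dot] at h4 ⊢
    linear_combination -h4

/-- the logarithmic derivations of the arrangement -/
def IsLog (ω h : K) (g : Fin 3 → MvPolynomial (Fin 3) K) : Prop :=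
  ∀ i, lf (zv ω h i) ∣ dot (cc (zv ω h i)) g

lemma isLog_iff {ω h : K} (hw : ω^2+ω+1=0) (hh : 2 * h = 1) {c : K} (hc : c ≠ 0)
    (φ : Derivation K (MvPolynomial (Fin 3) K) (MvPolynomial (Fin 3) K)) :
    φ ∈ logDer (C c * f0 ω h) ↔ IsLog ω h (vec φ) := by
  have h0 : φ (C c * f0 ω h) = C c * ∑ i, (∏ i' ∈ Finset.univ.erase i, lf (zv ω h i')) *
      dot (cc (zv ω h i)) (vec φ) := by
    rw [Derivation.leibniz, ← algebraMap_eq, Derivation.map_algebraMap, smul_zero, add_zero,
      f0, leibniz_prod, smul_eq_mul]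
    congr 1
    apply Finset.sum_congr rfl
    intro i _
    rw [der_lf, smul_eq_mul]
  constructor
  · intro hφ i
    have h1 : C c * f0 ω h ∣ φ (C c * f0 ω h) := hφ
    rw [h0, f0, mul_dvd_mul_iff_left (by simpa using hc)] at h1
    have h2 : lf (zv ω h i) ∣ ∑ i, (∏ i' ∈ Finset.univ.erase i, lf (zv ω h i')) *
        dot (cc (zv ω h i)) (vec φ) :=
      (Finset.dvd_prod_of_mem (fun i => lf (zv ω h i)) (Finset.mem_univ i)).trans h1
    rw [← Finset.add_sum_erase _ _ (Finset.mem_univ i)] at h2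
    have h3 : lf (zv ω h i) ∣ ∑ x ∈ Finset.univ.erase i,
        (∏ i' ∈ Finset.univ.erase x, lf (zv ω h i')) * dot (cc (zv ω h x)) (vec φ) := by
      apply Finset.dvd_sum
      intro x hx
      apply Dvd.dvd.mul_right
      exact Finset.dvd_prod_of_mem (fun i => lf (zv ω h i))
        (Finset.mem_erase.2 ⟨(Finset.ne_of_mem_erase hx).symm, Finset.mem_univ _⟩)
    have h4 := (dvd_add_left h3).1 h2
    have hp := lf_prime (zv_ne_zero ω h i)
    refine (hp.dvd_or_dvd h4).resolve_left ?_
    rw [hp.dvd_finsetProd_iff]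
    rintro ⟨j, hj, h5⟩
    exact lf_zv_not_dvd hw hh (Finset.ne_of_mem_erase hj).symm h5
  · intro hφ
    change C c * f0 ω h ∣ φ (C c * f0 ω h)
    rw [h0]
    apply mul_dvd_mul_left
    apply Finset.dvd_sum
    intro i _
    rw [f0, ← Finset.mul_prod_erase _ _ (Finset.mem_univ i), mul_comm]
    exact mul_dvd_mul_left _ (hφ i)

/-- three determinants -/
def det3 {R : Type*} [CommRing R] (a b c : Fin 3 → R) : R := dot a (cr b c)

omit [CharZero K] in
lemma det3_cr {R : Type*} [CommRing R] (a b c : Fin 3 → R) : det3 a b c = dot (cr a b) c := by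
  simp [det3, dot, cr]
  ring

lemma det3_dvd {ω h : K} (hw : ω^2+ω+1=0) (hh : 2 * h = 1)
    {a b c : Fin 3 → MvPolynomial (Fin 3) K} (ha : IsLog ω h a) (hb : IsLog ω h b)
    (hc : IsLog ω h c) : f0 ω h ∣ det3 a b c := by
  rw [f0]
  apply prod_dvd_of_primes
  · exact fun i _ => lf_prime (zv_ne_zero ω h i)
  · exact fun i _ j _ hij => lf_zv_not_dvd hw hh hij
  · intro i _
    obtain ⟨k, hk⟩ : ∃ k, zv ω h i k ≠ 0 := by
      by_contra hcon
      push Not at hcon
      exact zv_ne_zero ω h i (funext hcon)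
    have h1 : C (zv ω h i k) * det3 a b c = dot (cc (zv ω h i)) a * cr b c k +
        dot (cc (zv ω h i)) b * cr c a k + dot (cc (zv ω h i)) c * cr a b k := by
      fin_cases k <;> simp [det3, dot, cr, cc] <;> ring
    have h2 : lf (zv ω h i) ∣ C (zv ω h i k) * det3 a b c := by
      rw [h1]
      exact dvd_add (dvd_add ((ha i).mul_right _) ((hb i).mul_right _)) ((hc i).mul_right _)
    refine ((lf_prime (zv_ne_zero ω h i)).dvd_or_dvd h2).resolve_left ?_
    intro h3
    apply (lf_prime (zv_ne_zero ω h i)).not_isUnit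
    exact isUnit_of_dvd_unit h3 (IsUnit.map _ (isUnit_iff_ne_zero.2 hk))

omit [CharZero K] in
lemma hc_scal (F : MvPolynomial (Fin 3) K) (n : ℕ) :
    homogeneousComponent n F = (Quad.scal F).coeff n := (Quad.coeff_scal F n).symm

omit [CharZero K] in
/-- homogeneous component of a product with a form -/
lemma hc_mul {F G : MvPolynomial (Fin 3) K} {m : ℕ} (hF : F.IsHomogeneous m) (n : ℕ) :
    homogeneousComponent (m + n) (F * G) = F * homogeneousComponent n G := by
  rw [hc_scal, hc_scal, map_mul, Quad.scal_hom hF, mul_assoc, Polynomial.coeff_C_mul,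
    add_comm, Polynomial.coeff_X_pow_mul]

omit [CharZero K] in
lemma hc_mul_lt {F G : MvPolynomial (Fin 3) K} {m : ℕ} (hF : F.IsHomogeneous m) {n : ℕ}
    (hn : n < m) : homogeneousComponent n (F * G) = 0 := by
  rw [hc_scal, map_mul, Quad.scal_hom hF, mul_assoc, Polynomial.coeff_C_mul,
    Polynomial.coeff_X_pow_mul', if_neg (by omega), mul_zero]

omit [CharZero K] in
/-- the components of a logarithmic vector are logarithmic -/
lemma IsLog.hc {ω h : K} {g : Fin 3 → MvPolynomial (Fin 3) K} (hg : IsLog ω h g) (n : ℕ) :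
    IsLog ω h (fun j => homogeneousComponent n (g j)) := by
  intro i
  obtain ⟨q, hq⟩ := hg i
  have h1 : dot (cc (zv ω h i)) (fun j => homogeneousComponent n (g j)) =
      homogeneousComponent n (dot (cc (zv ω h i)) g) := by
    simp only [dot, cc, map_add, homogeneousComponent_C_mul]
  rw [h1, hq]
  cases n with
  | zero =>
    rw [hc_mul_lt (lf_hom _) (by omega)]
    exact dvd_zero _
  | succ n =>
    rw [add_comm n 1, hc_mul (lf_hom _)]
    exact dvd_mul_right _ _

end Der

end Pool.Agent.H880.Unexp
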