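import Mathlib
import Pool.Agent.H880.Unexp.Defs
import Pool.Agent.H880.Unexp.Sep
import Pool.Agent.H880.Unexp.Poly

open MvPolynomial
open scoped LinearAlgebra.Projectivization

universe u

namespace Pool.Agent.H880.Unexp

open Pool.Agent.Helper413

section Dim

variable {K : Type u} [Field K]

lemma finrank_hom : Module.finrank K (homogeneousSubmodule (Fin 3) K 10) = 66 := by
  rw [homogeneousSubmodule_eq_finsupp_supported]
  rw [(AddMonoidAlgebra.supportedEquivFinsupp (R := K) (S := K)
    {d : Fin 3 →₀ ℕ | d.degree = 10}).finrank_eq]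
  have h1 : {d : Fin 3 →₀ ℕ | d.degree = 10} =
      ((Finset.univ.finsuppAntidiag 10 : Finset (Fin 3 →₀ ℕ)) : Set (Fin 3 →₀ ℕ)) := by
    ext d
    simp [Finsupp.degree_eq_sum]
  rw [h1]
  have h2 : Module.finrank K
      (((Finset.univ.finsuppAntidiag 10 : Finset (Fin 3 →₀ ℕ)) : Set (Fin 3 →₀ ℕ)) →₀ K) =
      Fintype.card ((Finset.univ.finsuppAntidiag 10 : Finset (Fin 3 →₀ ℕ)) : Set (Fin 3 →₀ ℕ)) :=
    Module.finrank_finsupp_self K
  rw [h2]
  have h3 := Finset.card_finsuppAntidiag_nat_eq_choose (s := (Finset.univ : Finset (Fin 3))) 10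
  simp only [Finset.coe_sort_coe, Fintype.card_coe]
  rw [h3]
  decide

instance : FiniteDimensional K (homogeneousSubmodule (Fin 3) K 10) :=
  Module.finite_of_finrank_pos (by rw [finrank_hom]; norm_num)

lemma eval_sp (ω : K) (i : Fin 21) (v : Fin 3 → K) :
    eval v (sp (C ω) i X : MvPolynomial (Fin 3) K) = sp ω i v := by
  rw [map_sp]
  simp

lemma sp_hom (ω : K) (j : Fin 21) : (sp (C ω) j X : MvPolynomial (Fin 3) K).IsHomogeneous 10 := by
  apply hom_of_scal
  have h1 := map_sp (Quad.scal (k := K) (σ := Fin 3)).toRingHom (C ω) j X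
  have h2 : (Quad.scal (k := K) (σ := Fin 3)).toRingHom (sp (C ω) j X) =
    Quad.scal (sp (C ω) j X) := rfl
  rw [← h2, h1]
  have h3 : (fun i => (Quad.scal (k := K) (σ := Fin 3)).toRingHom (X i)) =
      fun i => Polynomial.C (X i) * Polynomial.X := by
    funext i
    simp [Quad.scal]
  have h4 : (Quad.scal (k := K) (σ := Fin 3)).toRingHom (C ω) = Polynomial.C (C ω) := by
    simp [Quad.scal]
  rw [h3, h4, sp_smul]
  congr 1
  exact (map_sp (Polynomial.C) (C ω) j X).symm

/-- evaluation at the `21` points -/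
noncomputable def evl (ω h : K) : MvPolynomial (Fin 3) K →ₗ[K] (Fin 21 → K) :=
  LinearMap.pi fun i => (aeval (zv ω h i)).toLinearMap

lemma evl_apply (ω h : K) (F : MvPolynomial (Fin 3) K) (i : Fin 21) :
    evl ω h F i = eval (zv ω h i) F := by
  exact RingHom.congr_fun (coe_aeval_eq_eval (zv ω h i)) F

lemma evl_surj [CharZero K] {ω h : K} (hw : ω^2+ω+1=0) (hh : 2 * h = 1) :
    Function.Surjective ((evl ω h).domRestrict (homogeneousSubmodule (Fin 3) K 10)) := by
  let M : Matrix (Fin 21) (Fin 21) K := fun i j => sp ω i (zv ω h j)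
  have hM : M.BlockTriangular id := fun i j hij => sp_lt hh i j hij
  have hdet : IsUnit M.det := by
    rw [Matrix.det_of_isUpperTriangular hM, isUnit_iff_ne_zero]
    exact Finset.prod_ne_zero_iff.2 fun i _ => sp_self hw hh i
  intro y
  let c := Matrix.vecMul y M⁻¹
  have hc : Matrix.vecMul c M = y := by
    simp only [c]
    rw [Matrix.vecMul_vecMul, Matrix.nonsing_inv_mul _ hdet, Matrix.vecMul_one]
  refine ⟨⟨∑ i, C (c i) * sp (C ω) i X, ?_⟩, ?_⟩
  · apply IsHomogeneous.sum
    intro i _
    exact (sp_hom ω i).C_mul _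
  · funext j
    rw [LinearMap.domRestrict_apply]
    change evl ω h (∑ i, C (c i) * sp (C ω) i X) j = y j
    rw [evl_apply, map_sum]
    have h1 : ∀ i, eval (zv ω h j) (C (c i) * sp (C ω) i X) = c i * M i j := by
      intro i
      rw [map_mul, eval_C, eval_sp]
    simp only [h1]
    rw [← congrFun hc j]
    rfl

/-- the points impose independent conditions on the forms of degree `10` -/
lemma finrank_degPart [CharZero K] {ω h : K} (hw : ω^2+ω+1=0) (hh : 2 * h = 1)
    {V : Submodule K (MvPolynomial (Fin 3) K)} (hV : V ≤ homogeneousSubmodule (Fin 3) K 10)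
    (hV0 : ∀ F ∈ V, ∀ i, eval (zv ω h i) F = 0) : Module.finrank K V ≤ 45 := by
  have h1 := LinearMap.finrank_range_add_finrank_ker
    ((evl ω h).domRestrict (homogeneousSubmodule (Fin 3) K 10))
  rw [LinearMap.range_eq_top.2 (evl_surj hw hh), finrank_top, Module.finrank_fin_fun,
    finrank_hom] at h1
  have h2 : LinearMap.range (Submodule.inclusion hV) ≤
      LinearMap.ker ((evl ω h).domRestrict (homogeneousSubmodule (Fin 3) K 10)) := by
    rintro _ ⟨F, rfl⟩
    rw [LinearMap.mem_ker]
    funext i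
    rw [LinearMap.domRestrict_apply]
    change evl ω h F.1 i = 0
    rw [evl_apply]
    exact hV0 F.1 F.2 i
  have h3 := Submodule.finrank_mono h2
  rw [LinearMap.finrank_range_of_inj (Submodule.inclusion_injective hV)] at h3
  omega

end Dim

end Pool.Agent.H880.Unexp
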