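import Mathlib
import Pool.Agent.H880.Unexp.Der

open MvPolynomial
open scoped LinearAlgebra.Projectivization

universe u

namespace Pool.Agent.H880.Unexp

open Pool.Agent.Helper413 Pool.Agent.Helper413.Split

section NonFree

variable {K : Type u} [Field K] [CharZero K]

omit [CharZero K] in
lemma eval_cc (z t : Fin 3 → K) (g : Fin 3 → MvPolynomial (Fin 3) K) :
    eval t (dot (cc z) g) = dot z (fun j => eval t (g j)) := by
  simp [dot, cc]

lemma isLog_tp {ω h : K} (hw : ω^2+ω+1=0) (hh : 2 * h = 1) : IsLog ω h (tp ω) := by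
  intro i
  have : Infinite K := inferInstance
  apply lf_dvd (zv_ne_zero ω h i)
  intro t ht
  rw [eval_cc]
  have : (fun j => eval t (tp ω j)) = th ω t := funext fun j => eval_tp ω t j
  rw [this]
  exact inv_line ω h hw hh i t ht

omit [CharZero K] in
lemma isLog_X (ω h : K) : IsLog ω h (X : Fin 3 → MvPolynomial (Fin 3) K) := by
  intro i
  rw [dot_sum]
  exact dvd_rfl

omit [CharZero K] in
lemma mp_eq (ω : K) : mp ω = cr X (tp ω) := mm_eq (C ω) X

omit [CharZero K] in
lemma cr_dot_left {R : Type*} [CommRing R] (a b : Fin 3 → R) : dot (cr a b) a = 0 := by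
  simp [dot, cr]
  ring

omit [CharZero K] in
lemma IsHomogeneous.dot' {a b : Fin 3 → MvPolynomial (Fin 3) K} {m n : ℕ}
    (ha : ∀ j, (a j).IsHomogeneous m) (hb : ∀ j, (b j).IsHomogeneous n) :
    (dot a b).IsHomogeneous (m + n) := by
  rw [dot_sum]
  exact IsHomogeneous.sum _ _ _ fun j _ => (ha j).mul (hb j)

omit [CharZero K] in
lemma IsHomogeneous.cr' {a b : Fin 3 → MvPolynomial (Fin 3) K} {m n : ℕ}
    (ha : ∀ j, (a j).IsHomogeneous m) (hb : ∀ j, (b j).IsHomogeneous n) (j : Fin 3) :
    (cr a b j).IsHomogeneous (m + n) := by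
  fin_cases j
  · exact ((ha 1).mul (hb 2)).sub ((ha 2).mul (hb 1))
  · exact ((ha 2).mul (hb 0)).sub ((ha 0).mul (hb 2))
  · exact ((ha 0).mul (hb 1)).sub ((ha 1).mul (hb 0))

/-- there is no logarithmic derivation of degree at most `8` besides the multiples of the Euler
derivation -/
lemma low {ω h : K} (hw : ω^2+ω+1=0) (hh : 2 * h = 1) {g : Fin 3 → MvPolynomial (Fin 3) K}
    (hg : IsLog ω h g) {k : ℕ} (hk : k ≤ 8) (hgk : ∀ j, (g j).IsHomogeneous k) (j : Fin 3) :
    cr X g j = 0 := by
  have h1 : dot (mp ω) g = 0 := by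
    by_contra hne
    have h2 : f0 ω h ∣ dot (mp ω) g := by
      rw [mp_eq, ← det3_cr]
      exact det3_dvd hw hh (isLog_X ω h) (isLog_tp hw hh) hg
    obtain ⟨q, hq⟩ := h2
    have hq0 : q ≠ 0 := by
      rintro rfl
      exact hne (by rw [hq, mul_zero])
    have h3 := (IsHomogeneous.dot' (mp_hom ω) hgk).totalDegree_le
    rw [hq, totalDegree_mul_of_isDomain (f0_ne_zero ω h) hq0,
      (f0_hom ω h).totalDegree (f0_ne_zero ω h)] at h3
    omega
  have h2 : dot (mp ω) X = 0 := by
    rw [mp_eq]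
    exact cr_dot_left _ _
  obtain ⟨c, hc⟩ := parallel (g := mp ω) (h := cr X g) (mp_prim ω h hw hh)
    (cr_par (a := X) (b := g) (by rw [← dot_sum, dot_comm']; exact h2)
      (by rw [← dot_sum, dot_comm']; exact h1))
  by_cases hc0 : c = 0
  · rw [hc, hc0, zero_mul]
  · exfalso
    obtain ⟨i, hi⟩ := (mp_prim ω h hw hh).1
    have h3 := (IsHomogeneous.cr' (isHomogeneous_X K) hgk i).totalDegree_le
    rw [hc, totalDegree_mul_of_isDomain hc0 hi, (mp_hom ω i).totalDegree hi] at h3
    omega

omit [CharZero K] in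
lemma coeff_scal_cr (g : Fin 3 → MvPolynomial (Fin 3) K) (j : Fin 3) (d : ℕ) :
    homogeneousComponent (1 + d) (cr X g j) = cr X (fun j => homogeneousComponent d (g j)) j := by
  fin_cases j
  · simp only [cr, Fin.zero_eta, Matrix.cons_val_zero, map_sub, hc_mul (isHomogeneous_X K _)]
  · simp only [cr, Fin.mk_one, Matrix.cons_val_one, Matrix.cons_val_zero, map_sub,
      hc_mul (isHomogeneous_X K _)]
  · simp only [cr, Fin.reduceFinMk, Matrix.cons_val, map_sub, hc_mul (isHomogeneous_X K _)]

/-- the order of `E × φ` at the origin -/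
lemma ord {ω h : K} (hw : ω^2+ω+1=0) (hh : 2 * h = 1) {g : Fin 3 → MvPolynomial (Fin 3) K}
    (hg : IsLog ω h g) (j : Fin 3) : Polynomial.X ^ 10 ∣ Quad.scal (cr X g j) := by
  rw [Polynomial.X_pow_dvd_iff]
  intro d hd
  rw [Quad.coeff_scal]
  cases d with
  | zero =>
    fin_cases j
    · simp only [cr, Fin.zero_eta, Matrix.cons_val_zero, map_sub,
        hc_mul_lt (isHomogeneous_X K _) Nat.zero_lt_one, sub_self]
    · simp only [cr, Fin.mk_one, Matrix.cons_val_one, Matrix.cons_val_zero, map_sub,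
        hc_mul_lt (isHomogeneous_X K _) Nat.zero_lt_one, sub_self]
    · simp only [cr, Fin.reduceFinMk, Matrix.cons_val, map_sub,
        hc_mul_lt (isHomogeneous_X K _) Nat.zero_lt_one, sub_self]
  | succ d =>
    rw [add_comm d 1, coeff_scal_cr]
    exact low hw hh (hg.hc d) (by omega) (fun _ => homogeneousComponent_isHomogeneous _ _) j

/-- logarithmic derivations vanish at the origin -/
lemma const_zero {ω h : K} (hw : ω^2+ω+1=0) (hh : 2 * h = 1)
    {g : Fin 3 → MvPolynomial (Fin 3) K} (hg : IsLog ω h g) (j : Fin 3) :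
    Polynomial.X ∣ Quad.scal (g j) := by
  rw [Polynomial.X_dvd_iff, Quad.coeff_scal]
  have h1 := fun i => low hw hh (hg.hc 0) (by omega)
    (fun _ => homogeneousComponent_isHomogeneous _ _) i
  have h2 : ∀ j, ∃ c, homogeneousComponent 0 (g j) = C c := by
    intro j
    exact ⟨_, homogeneousComponent_zero _⟩
  choose c hc using h2
  have h3 : ∀ j, c j = 0 := by
    have e0 := h1 0
    have e1 := h1 1
    have e2 := h1 2
    simp only [cr, hc, Matrix.cons_val_zero, Matrix.cons_val_one, Matrix.cons_val] at e0 e1 e2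
    have f0 := congrArg (eval (![0, 1, 0] : Fin 3 → K)) e0
    have f1 := congrArg (eval (![0, 0, 1] : Fin 3 → K)) e1
    have f2 := congrArg (eval (![1, 0, 0] : Fin 3 → K)) e2
    simp at f0 f1 f2
    intro j
    fin_cases j
    · exact f1
    · exact f2
    · exact f0
  rw [hc, h3, C_0]

omit [CharZero K] in
/-- the local computation at the point `(ω : 1 : 0)` -/
lemma local_q {ω h : K} (hw : ω^2+ω+1=0) {g : Fin 3 → MvPolynomial (Fin 3) K}
    (hg : IsLog ω h g) : ∃ R, dot (mp ω) g = lf (zv ω h 8) * (lf (zv ω h 6) * R) ∧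
      eval ![ω, 1, 0] R = 0 := by
  obtain ⟨b, hb⟩ := hg 8
  obtain ⟨a, ha⟩ := hg 6
  have hwC : (C ω : MvPolynomial (Fin 3) K)^2 + C ω + 1 = 0 := by
    have := congrArg (C : K → MvPolynomial (Fin 3) K) hw
    simpa using this
  have e8 : lf (zv ω h 8) = X 2 := by
    simp [lf, Fin.sum_univ_three, zv]
  have e6 : lf (zv ω h 6) = X 0 - C ω * X 1 := by
    simp [lf, Fin.sum_univ_three, zv]
    ring
  have d8 : dot (cc (zv ω h 8)) g = g 2 := by
    simp [dot, cc, zv]
  have d6 : dot (cc (zv ω h 6)) g = g 0 - C ω * g 1 := by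
    simp [dot, cc, zv]
    ring
  rw [e8, d8] at hb
  rw [e6, d6] at ha
  rw [e8, e6]
  refine ⟨fA (C ω) X * (X 1 * a - g 1) + -(X 0 + (1 + C ω) * X 1) * fL (C ω) X * fd X *
    (-(X 1 * (fz X - X 0)) * g 0 + X 0 * (X 1 - fz X) * g 1 + 3 * fq X * b), ?_, ?_⟩
  · have hT : fT (C ω) (X : Fin 3 → MvPolynomial (Fin 3) K) =
        (X 0 - C ω * X 1) * (-(X 0 + (1 + C ω) * X 1) * fL (C ω) X * fd X) := by
      rw [fT]
      have : fp (X : Fin 3 → MvPolynomial (Fin 3) K) =
          -((X 0 - C ω * X 1) * (X 0 + (1 + C ω) * X 1)) := by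
        simp only [fp]
        linear_combination -(X 1)^2 * hwC
      rw [this]
      ring
    have h1 : dot (mp ω) g = X 2 * (fA (C ω) X * (X 1 * g 0 - X 0 * g 1) +
        fT (C ω) X * (-(X 1 * (fz X - X 0)) * g 0 + X 0 * (X 1 - fz X) * g 1 +
        3 * fq X * b)) := by
      simp only [dot, mp, mm, Matrix.cons_val_zero, Matrix.cons_val_one, Matrix.cons_val]
      rw [hb]
      ring
    rw [h1, hT]
    linear_combination X 2 * fA (C ω) X * X 1 * ha
  · have h1 : eval ![ω, 1, 0] (fA (C ω) (X : Fin 3 → MvPolynomial (Fin 3) K)) = 0 := by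
      have : -1 + (-ω + -ω ^ 2) = 0 := by linear_combination -hw
      simp [fA, fp, fL, fW, this]
    have h2 : eval ![ω, 1, 0] (fL (C ω) (X : Fin 3 → MvPolynomial (Fin 3) K)) = 0 := by
      have : -1 + (-ω + -ω ^ 2) = 0 := by linear_combination -hw
      simp [fL, fp, fW, this]
    simp only [map_add, map_mul, h1, h2, zero_mul, mul_zero, add_zero]

omit [CharZero K] in
lemma det3_mul {R : Type*} [CommRing R] (a b c : Fin 3 → R) (v : Fin 3 → Fin 3 → R) :
    det3 (∑ i, a i • v i) (∑ i, b i • v i) (∑ i, c i • v i) =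
      det3 a b c * det3 (v 0) (v 1) (v 2) := by
  simp only [det3, dot, cr, Fin.sum_univ_three, Pi.add_apply, Pi.smul_apply, smul_eq_mul,
    Matrix.cons_val_zero, Matrix.cons_val_one, Matrix.cons_val]
  ring

omit [CharZero K] in
lemma cr_cr_same {R : Type*} [CommRing R] (z p q x : Fin 3 → R) (f : R) :
    det3 x (fun j => f * cr z p j) (fun j => f * cr z q j) = f ^ 2 * (dot z x * det3 z p q) := by
  simp only [det3, dot, cr, Matrix.cons_val_zero, Matrix.cons_val_one, Matrix.cons_val]
  ring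

/-- the linear map of components -/
noncomputable def vecL (F : MvPolynomial (Fin 3) K) :
    logDer F →ₗ[MvPolynomial (Fin 3) K] (Fin 3 → MvPolynomial (Fin 3) K) where
  toFun φ := vec φ.1
  map_add' φ ψ := by
    funext j
    simp [vec]
  map_smul' r φ := by
    funext j
    simp [vec]

omit [CharZero K] in
lemma vecL_inj (F : MvPolynomial (Fin 3) K) : Function.Injective (vecL F) := by
  intro φ ψ h
  apply Subtype.ext
  apply MvPolynomial.derivation_ext
  intro i
  exact congrFun h i

omit [CharZero K] in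
lemma vec_mk (g : Fin 3 → MvPolynomial (Fin 3) K) : vec (mkDerivation K g) = g := by
  funext j
  simp [vec]

/-- multiples of `F` are logarithmic -/
noncomputable def mulL (F : MvPolynomial (Fin 3) K) :
    (Fin 3 → MvPolynomial (Fin 3) K) →ₗ[MvPolynomial (Fin 3) K] logDer F where
  toFun g := ⟨F • mkDerivation K g, by
    change F ∣ (F • mkDerivation K g) F
    rw [Derivation.smul_apply, smul_eq_mul]
    exact dvd_mul_right _ _⟩
  map_add' φ ψ := by
    apply Subtype.ext
    apply MvPolynomial.derivation_ext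
    intro i
    simp [mul_add]
  map_smul' r φ := by
    apply Subtype.ext
    apply MvPolynomial.derivation_ext
    intro i
    simp
    ring

omit [CharZero K] in
lemma mulL_inj {F : MvPolynomial (Fin 3) K} (hF : F ≠ 0) : Function.Injective (mulL F) := by
  intro φ ψ h
  funext i
  have h1 := congrArg (fun x : logDer F => x.1 (X i)) h
  simp [mulL] at h1
  exact h1.resolve_right hF

omit [CharZero K] in
lemma exists_basis {F : MvPolynomial (Fin 3) K} (hF : F ≠ 0)
    (hfree : Module.Free (MvPolynomial (Fin 3) K) (logDer F)) :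
    Nonempty (Module.Basis (Fin 3) (MvPolynomial (Fin 3) K) (logDer F)) := by
  have h1 : Module.rank (MvPolynomial (Fin 3) K) (logDer F) ≤ 3 := by
    have := LinearMap.rank_le_of_injective (vecL F) (vecL_inj F)
    simpa using this
  have h2 : 3 ≤ Module.rank (MvPolynomial (Fin 3) K) (logDer F) := by
    have := LinearMap.rank_le_of_injective (mulL F) (mulL_inj hF)
    simpa using this
  have h3 : Module.rank (MvPolynomial (Fin 3) K) (logDer F) = ((3 : ℕ) : Cardinal) := by
    rw [Nat.cast_ofNat]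
    exact le_antisymm h1 h2
  have h4 : Module.finrank (MvPolynomial (Fin 3) K) (logDer F) = 3 :=
    Module.finrank_eq_of_rank_eq h3
  have h5 : Module.Finite (MvPolynomial (Fin 3) K) (logDer F) :=
    Module.finite_of_rank_eq_nat h3
  exact ⟨Module.finBasisOfFinrankEq _ _ h4⟩

end NonFree

end Pool.Agent.H880.Unexp
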