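import Mathlib
import Pool.Agent.H880.Unexp.NonFree

open MvPolynomial
open scoped LinearAlgebra.Projectivization

universe u

namespace Pool.Agent.H880.Unexp

open Pool.Agent.Helper413 Pool.Agent.Helper413.Split

section NotFree

variable {K : Type u} [Field K] [CharZero K]

omit [CharZero K] in
/-- special logarithmic vectors -/
lemma isLog_special {ω h : K} (i : Fin 21) (p : Fin 3 → K) :
    IsLog ω h (fun j => (∏ i' ∈ Finset.univ.erase i, lf (zv ω h i')) *
      cr (cc (zv ω h i)) (cc p) j) := by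
  intro k
  have h1 : dot (cc (zv ω h k)) (fun j => (∏ i' ∈ Finset.univ.erase i, lf (zv ω h i')) *
      cr (cc (zv ω h i)) (cc p) j) = (∏ i' ∈ Finset.univ.erase i, lf (zv ω h i')) *
      dot (cc (zv ω h k)) (cr (cc (zv ω h i)) (cc p)) := by
    simp only [dot]
    ring
  rw [h1]
  by_cases hki : k = i
  · rw [hki, dot_cr_left, mul_zero]
    exact dvd_zero _
  · apply Dvd.dvd.mul_right
    exact Finset.dvd_prod_of_mem (fun i => lf (zv ω h i))
      (Finset.mem_erase.2 ⟨hki, Finset.mem_univ _⟩)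

omit [CharZero K] in
lemma exists_det {z : Fin 3 → K} (hz : z ≠ 0) : ∃ p q : Fin 3 → K, det3 z p q ≠ 0 := by
  obtain ⟨k, hk⟩ : ∃ k, z k ≠ 0 := by
    by_contra hcon
    push Not at hcon
    exact hz (funext hcon)
  fin_cases k
  · exact ⟨Pi.single 1 1, Pi.single 2 1, by simpa [det3, dot, cr] using hk⟩
  · exact ⟨Pi.single 2 1, Pi.single 0 1, by simpa [det3, dot, cr] using hk⟩
  · exact ⟨Pi.single 0 1, Pi.single 1 1, by simpa [det3, dot, cr] using hk⟩

omit [CharZero K] in
lemma det3_cc (a b c : Fin 3 → K) : det3 (cc a) (cc b) (cc c) =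
    (C (det3 a b c) : MvPolynomial (Fin 3) K) := by
  simp [det3, dot, cr, cc]

omit [CharZero K] in
lemma X_dvd_scal {F : MvPolynomial (Fin 3) K} (hF : coeff 0 F = 0) :
    Polynomial.X ∣ Quad.scal F := by
  rw [Polynomial.X_dvd_iff, Quad.coeff_scal, homogeneousComponent_zero, hF, C_0]

omit [CharZero K] in
lemma scal_hom_zero {F : MvPolynomial (Fin 3) K} {n : ℕ} (hF : F.IsHomogeneous n)
    (h : Polynomial.X ^ (n + 1) ∣ Quad.scal F) : F = 0 := by
  rw [Quad.scal_hom hF, Polynomial.X_pow_dvd_iff] at h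
  have := h n (by omega)
  rwa [Polynomial.coeff_C_mul_X_pow, if_pos rfl] at this

theorem not_free {ω h : K} (hw : ω^2+ω+1=0) (hh : 2 * h = 1) {c : K} (hc : c ≠ 0) :
    ¬ Module.Free (MvPolynomial (Fin 3) K) (logDer (C c * f0 ω h)) := by
  intro hfree
  have hF0 : C c * f0 ω h ≠ 0 := mul_ne_zero (by simpa using hc) (f0_ne_zero ω h)
  obtain ⟨b⟩ := exists_basis hF0 hfree
  have hmem : ∀ g, IsLog ω h g → mkDerivation K g ∈ logDer (C c * f0 ω h) := by
    intro g hg
    rw [isLog_iff hw hh hc, vec_mk]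
    exact hg
  let v : Fin 3 → Fin 3 → MvPolynomial (Fin 3) K := fun i => vec (b i).1
  have hv : ∀ i, IsLog ω h (v i) := fun i => (isLog_iff hw hh hc _).1 (b i).2
  -- coordinates
  have hcoord : ∀ g, IsLog ω h g → ∃ a : Fin 3 → MvPolynomial (Fin 3) K, g = ∑ i, a i • v i := by
    intro g hg
    refine ⟨b.repr ⟨_, hmem g hg⟩, ?_⟩
    have h1 := congrArg (vecL (C c * f0 ω h)) (b.sum_repr ⟨_, hmem g hg⟩)
    rw [map_sum] at h1
    simp only [map_smul] at h1
    have h2 : vecL (C c * f0 ω h) ⟨_, hmem g hg⟩ = g := vec_mk g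
    rw [h2] at h1
    exact h1.symm
  -- the determinant of the basis
  obtain ⟨κ, hκ⟩ := det3_dvd hw hh (hv 0) (hv 1) (hv 2)
  have hκdvd : ∀ i, κ ≠ 0 ∧ ∀ π, Prime π → π ∣ κ →
      π ∣ ∏ i' ∈ Finset.univ.erase i, lf (zv ω h i') := by
    intro i
    obtain ⟨p, q, hpq⟩ := exists_det (zv_ne_zero ω h i)
    obtain ⟨a1, h1⟩ := hcoord _ (isLog_X ω h)
    obtain ⟨a2, h2⟩ := hcoord _ (isLog_special (ω := ω) (h := h) i p)
    obtain ⟨a3, h3⟩ := hcoord _ (isLog_special (ω := ω) (h := h) i q)
    have h4 := det3_mul a1 a2 a3 v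
    rw [← h1, ← h2, ← h3, cr_cr_same, hκ, det3_cc] at h4
    have h5 : dot (cc (zv ω h i)) X = lf (zv ω h i) := by
      rw [dot_sum]
      rfl
    have h6 : f0 ω h = lf (zv ω h i) * ∏ i' ∈ Finset.univ.erase i, lf (zv ω h i') := by
      rw [f0, Finset.mul_prod_erase _ (fun i => lf (zv ω h i)) (Finset.mem_univ i)]
    have h7 : (∏ i' ∈ Finset.univ.erase i, lf (zv ω h i')) ≠ 0 :=
      Finset.prod_ne_zero_iff.2 fun i _ => lf_ne_zero (zv_ne_zero ω h i)
    have h8 : κ * det3 a1 a2 a3 =
        (∏ i' ∈ Finset.univ.erase i, lf (zv ω h i')) * C (det3 (zv ω h i) p q) := by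
      apply mul_left_cancel₀ (mul_ne_zero (lf_ne_zero (zv_ne_zero ω h i)) h7)
      rw [h5, h6] at h4
      linear_combination -h4
    constructor
    · rintro rfl
      rw [zero_mul] at h8
      exact mul_ne_zero h7 (by simpa using hpq) h8.symm
    · intro π hπ hd
      have h9 : π ∣ (∏ i' ∈ Finset.univ.erase i, lf (zv ω h i')) * C (det3 (zv ω h i) p q) := by
        rw [← h8]
        exact hd.mul_right _
      refine (hπ.dvd_or_dvd h9).resolve_right fun h10 => hπ.not_isUnit ?_
      exact isUnit_of_dvd_unit h10 (IsUnit.map _ (isUnit_iff_ne_zero.2 hpq))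
  have hκ0 : κ ≠ 0 := (hκdvd 0).1
  have hκu : IsUnit κ := by
    by_contra hnu
    obtain ⟨π, hπ, hd⟩ := WfDvdMonoid.exists_irreducible_factor hnu hκ0
    have hπp := hπ.prime
    have h1 := (hκdvd 0).2 π hπp hd
    rw [hπp.dvd_finsetProd_iff] at h1
    obtain ⟨j, -, hj⟩ := h1
    have h2 : lf (zv ω h j) ∣ π :=
      (hπp.associated_of_dvd (lf_prime (zv_ne_zero ω h j)) hj).symm.dvd
    have h3 := h2.trans ((hκdvd j).2 π hπp hd)
    rw [(lf_prime (zv_ne_zero ω h j)).dvd_finsetProd_iff] at h3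
    obtain ⟨i, hi, h4⟩ := h3
    exact lf_zv_not_dvd hw hh (Finset.ne_of_mem_erase hi).symm h4
  obtain ⟨k0, hk0, hκC⟩ : ∃ k0 : K, k0 ≠ 0 ∧ κ = C k0 := by
    obtain ⟨κ', h1⟩ := hκu.exists_right_inv
    have h2 : κ' ≠ 0 := by
      rintro rfl
      rw [mul_zero] at h1
      exact zero_ne_one h1
    have h3 := totalDegree_mul_of_isDomain hκ0 h2
    rw [h1, totalDegree_one] at h3
    have h4 : κ = C (coeff 0 κ) := (totalDegree_eq_zero_iff_eq_C).1 (by omega)
    refine ⟨coeff 0 κ, ?_, h4⟩
    intro h5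
    rw [h5, C_0] at h4
    exact hκ0 h4
  -- coordinates of the Euler derivation and of `θ`
  obtain ⟨e, he⟩ := hcoord _ (isLog_X ω h)
  obtain ⟨a, ha⟩ := hcoord _ (isLog_tp hw hh)
  have hind : ∃ k, cr (fun i => coeff 0 (e i)) (fun i => coeff 0 (a i)) k ≠ 0 := by
    by_contra hcon
    push Not at hcon
    by_cases he0 : ∀ i, coeff 0 (e i) = 0
    · have h1 : (X 0 : MvPolynomial (Fin 3) K) = 0 := by
        apply scal_hom_zero (isHomogeneous_X K 0)
        rw [he, Finset.sum_apply, map_sum]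
        apply Finset.dvd_sum
        intro i _
        rw [Pi.smul_apply, smul_eq_mul, map_mul, pow_succ, pow_one]
        exact mul_dvd_mul (X_dvd_scal (he0 i)) (const_zero hw hh (hv i) 0)
      exact X_ne_zero 0 h1
    · push Not at he0
      obtain ⟨k, hk⟩ := he0
      obtain ⟨m, hm⟩ : ∃ m : K, ∀ i, coeff 0 (a i) = m * coeff 0 (e i) := by
        refine ⟨coeff 0 (a k) / coeff 0 (e k), fun i => ?_⟩
        have e0 := hcon 0
        have e1 := hcon 1
        have e2 := hcon 2
        simp [cr] at e0 e1 e2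
        field_simp
        fin_cases k <;> fin_cases i <;> simp <;> grind
      obtain ⟨j, hj⟩ := (mp_prim ω h hw hh).1
      apply hj
      apply scal_hom_zero (mp_hom ω j)
      have h1 : mp ω j = ∑ i, (a i - C m * e i) * cr X (v i) j := by
        have h2 : ∑ i, (a i - C m * e i) * cr X (v i) j =
            cr X (fun l => tp ω l - C m * X l) j := by
          have h3 : (fun l => tp ω l - C m * X l) = ∑ i, (a i - C m * e i) • v i := by
            funext l
            have e1 := congrFun he l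
            have e2 := congrFun ha l
            rw [Finset.sum_apply] at e1 e2 ⊢
            simp only [Pi.smul_apply, smul_eq_mul, sub_mul, Finset.sum_sub_distrib] at e1 e2 ⊢
            rw [e2]
            congr 1
            rw [e1, Finset.mul_sum]
            exact Finset.sum_congr rfl fun i _ => by ring
          rw [h3]
          simp only [Fin.sum_univ_three]
          fin_cases j <;> simp [cr] <;> ring
        rw [h2, mp_eq]
        fin_cases j <;> simp [cr] <;> ring
      rw [h1, map_sum]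
      apply Finset.dvd_sum
      intro i _
      rw [map_mul, pow_succ, mul_comm]
      apply mul_dvd_mul
      · apply X_dvd_scal
        rw [coeff_sub, coeff_C_mul, hm, sub_self]
      · exact ord hw hh (hv i) j
  obtain ⟨k, hk⟩ := hind
  have hg0 : coeff 0 (cr e a k) ≠ 0 := by
    have h1 : coeff 0 (cr e a k) = cr (fun i => coeff 0 (e i)) (fun i => coeff 0 (a i)) k := by
      rw [← constantCoeff_eq, map_cr]
    rw [h1]
    exact hk
  have h1 : dot (mp ω) (v k) = f0 ω h * (C k0 * cr e a k) := by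
    have h2 : v k = ∑ i, (Pi.single k 1 : Fin 3 → MvPolynomial (Fin 3) K) i • v i := by
      rw [Finset.sum_eq_single k]
      · rw [Pi.single_eq_same, one_smul]
      · intro i _ hi
        rw [Pi.single_eq_of_ne hi, zero_smul]
      · intro hi
        exact absurd (Finset.mem_univ _) hi
    have h3 := det3_mul e a (Pi.single k 1) v
    rw [← he, ← ha, ← h2, det3_cr, ← mp_eq, hκ, hκC] at h3
    rw [h3]
    have h4 : det3 e a (Pi.single k 1) = cr e a k := by
      rw [det3_cr]
      fin_cases k <;> simp [dot]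
    rw [h4]
    ring
  have h2 := congrArg (homogeneousComponent (10 + 11)) h1
  have h3 : homogeneousComponent (10 + 11) (dot (mp ω) (v k)) =
      dot (mp ω) (fun j => homogeneousComponent 11 (v k j)) := by
    simp only [dot, map_add, hc_mul (mp_hom ω _)]
  have h4 : homogeneousComponent (10 + 11) (f0 ω h * (C k0 * cr e a k)) =
      f0 ω h * C (k0 * coeff 0 (cr e a k)) := by
    change homogeneousComponent (21 + 0) (f0 ω h * (C k0 * cr e a k)) = _
    rw [hc_mul (f0_hom ω h), homogeneousComponent_zero, coeff_C_mul]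
  rw [h3, h4] at h2
  obtain ⟨R, hR, hR0⟩ := local_q hw ((hv k).hc 11)
  rw [hR] at h2
  have h5 : f0 ω h = lf (zv ω h 8) * (lf (zv ω h 6) *
      ∏ i ∈ (Finset.univ.erase 8).erase 6, lf (zv ω h i)) := by
    rw [f0, Finset.mul_prod_erase _ (fun i => lf (zv ω h i)) (by decide),
      Finset.mul_prod_erase _ (fun i => lf (zv ω h i)) (by decide)]
  rw [h5] at h2
  have h6 : R = (∏ i ∈ (Finset.univ.erase 8).erase 6, lf (zv ω h i)) *
      C (k0 * coeff 0 (cr e a k)) := by
    apply mul_left_cancel₀ (lf_ne_zero (zv_ne_zero ω h 6))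
    apply mul_left_cancel₀ (lf_ne_zero (zv_ne_zero ω h 8))
    linear_combination h2
  rw [h6, map_mul, eval_C, map_prod] at hR0
  rcases mul_eq_zero.1 hR0 with h7 | h7
  · rw [Finset.prod_eq_zero_iff] at h7
    obtain ⟨i, hi, h8⟩ := h7
    rw [eval_lf] at h8
    have h9 : i ≠ 6 := (Finset.mem_erase.1 hi).1
    have h10 : i ≠ 8 := (Finset.mem_erase.1 (Finset.mem_erase.1 hi).2).1
    have h11 := congrFun (dot_zv ω h ω 1 0) i
    rw [h8] at h11
    have w0 : ω ≠ 0 := by
      rintro rfl
      simp at hw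
    have w1 : ω + 1 ≠ 0 := by
      intro h0
      apply w0
      have : ω^2 + (ω + 1) = 0 := by linear_combination hw
      rw [h0, add_zero] at this
      exact pow_eq_zero_iff (two_ne_zero) |>.1 this
    have w2 : ω - 1 ≠ 0 := by
      intro h0
      have h1 : ω = 1 := by linear_combination h0
      rw [h1] at hw
      norm_num at hw
    have w3 : ω + 2 ≠ 0 := by
      have := nz hw (a := 2) (b := 1) (by norm_num)
      rwa [one_mul, add_comm] at this
    have w4 : ω + h ≠ 0 := by
      intro h0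
      have h1 : (1 : K) + 2 * ω = 0 := by linear_combination 2 * h0 - hh
      exact nz hw (a := 1) (b := 2) (by norm_num) h1
    have w5 : ω + (1 + ω) ≠ 0 := by
      intro h0
      have h1 : (1 : K) + 2 * ω = 0 := by linear_combination h0
      exact nz hw (a := 1) (b := 2) (by norm_num) h1
    fin_cases i <;> simp at h9 h10 h11 <;> grind
  · rcases mul_eq_zero.1 h7 with h8 | h8
    · exact hk0 h8
    · exact hg0 h8

end NotFree

end Pool.Agent.H880.Unexp
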