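import Mathlib
import Pool.Agent.H880.Unexp.NotFree
import Pool.Agent.H880.Unexp.Dim

open MvPolynomial
open scoped LinearAlgebra.Projectivization

universe u

namespace Pool.Agent.H880.Unexp

open Pool.Agent.Helper413 Pool.Agent.Helper413.Split

section Main

variable {K : Type u} [Field K] [CharZero K]

/-- the `21` points -/
noncomputable def pt (ω h : K) (i : Fin 21) : ℙ K (Fin 3 → K) :=
  Projectivization.mk K (zv ω h i) (zv_ne_zero ω h i)

lemma pt_rep (ω h : K) (i : Fin 21) : ∃ a : K, a ≠ 0 ∧ ∀ j, (pt ω h i).rep j = zv ω h i j * a := by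
  obtain ⟨a, ha⟩ := Projectivization.exists_smul_eq_mk_rep K (zv ω h i) (zv_ne_zero ω h i)
  refine ⟨a, a.ne_zero, fun j => ?_⟩
  rw [pt, ← ha, Pi.smul_apply, Units.smul_def, smul_eq_mul, mul_comm]

lemma pt_inj {ω h : K} (hw : ω^2+ω+1=0) (hh : 2 * h = 1) : Function.Injective (pt ω h) := by
  intro i j hij
  by_contra hne
  apply zv_cr_ne hw hh hne
  rw [pt, pt, Projectivization.mk_eq_mk_iff'] at hij
  obtain ⟨a, ha⟩ := hij
  rw [← ha]
  funext l
  fin_cases l <;> simp [cr] <;> ring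

open Classical in
/-- the set of `21` points -/
noncomputable def ZZ (ω h : K) : Finset (ℙ K (Fin 3 → K)) := Finset.univ.image (pt ω h)

lemma mem_ZZ {ω h : K} {p : ℙ K (Fin 3 → K)} : p ∈ ZZ ω h ↔ ∃ i, pt ω h i = p := by
  simp [ZZ]

open Classical in
lemma card_ZZ {ω h : K} (hw : ω^2+ω+1=0) (hh : 2 * h = 1) : (ZZ ω h).card = 21 := by
  rw [ZZ, Finset.card_image_of_injective _ (pt_inj hw hh)]
  rfl

open Classical in
lemma dualPoly_ZZ {ω h : K} (hw : ω^2+ω+1=0) (hh : 2 * h = 1) :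
    ∃ c : K, c ≠ 0 ∧ dualPoly (ZZ ω h) = C c * f0 ω h := by
  choose a ha0 ha using pt_rep ω h
  refine ⟨∏ i, a i, Finset.prod_ne_zero_iff.2 fun i _ => ha0 i, ?_⟩
  rw [dualPoly, ZZ, Finset.prod_image (fun i _ j _ hij => pt_inj hw hh hij), f0, map_prod,
    ← Finset.prod_mul_distrib]
  apply Finset.prod_congr rfl
  intro i _
  rw [lf, Finset.mul_sum]
  apply Finset.sum_congr rfl
  intro j _
  rw [ha, map_mul]
  ring

lemma not_dualFree {ω h : K} (hw : ω^2+ω+1=0) (hh : 2 * h = 1) : ¬ DualFree (ZZ ω h) := by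
  obtain ⟨c, hc, h1⟩ := dualPoly_ZZ hw hh
  rw [DualFree, h1]
  exact not_free hw hh hc

omit [CharZero K] in
/-- every vector orthogonal to `z` is a cross product with `z` -/
lemma exists_cr {z t : Fin 3 → K} (hz : z ≠ 0) (ht : dot z t = 0) : ∃ P, cr P z = t := by
  obtain ⟨k, hk⟩ : ∃ k, z k ≠ 0 := by
    by_contra hcon
    push Not at hcon
    exact hz (funext hcon)
  have hu : dot (Pi.single k (z k)⁻¹) z = 1 := by
    rw [dot_sum, Finset.sum_eq_single k]
    · rw [Pi.single_eq_same, inv_mul_cancel₀ hk]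
    · intro i _ hi
      rw [Pi.single_eq_of_ne hi, zero_mul]
    · intro hi
      exact absurd (Finset.mem_univ _) hi
  refine ⟨cr (Pi.single k (z k)⁻¹) t, ?_⟩
  rw [cr_cr, hu, dot_comm' t z, ht]
  funext j
  ring

/-- the open set of general points -/
lemma exists_gen {ω h : K} (hw : ω^2+ω+1=0) (hh : 2 * h = 1) :
    ∃ (n : ℕ) (H : MvPolynomial (Fin 3) K), H.IsHomogeneous n ∧ H ≠ 0 ∧
      ∀ P : Fin 3 → K, eval P H ≠ 0 → Gen ω h P := by
  choose t ht j hj using mm_ne ω h hw hh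
  let G : Fin 21 → MvPolynomial (Fin 3) K := fun i =>
    aeval (fun l => cr X (cc (zv ω h i)) l) (mp ω (j i))
  have hG : ∀ i P, eval P (G i) = mm ω (cr P (zv ω h i)) (j i) := by
    intro i P
    have h1 : (eval P).comp
        (aeval (R := K) (fun l => cr X (cc (zv ω h i)) l : Fin 3 → MvPolynomial (Fin 3) K)).toRingHom
        = eval (cr P (zv ω h i)) := by
      apply MvPolynomial.ringHom_ext
      · intro r
        simp
      · intro l
        have h2 := map_cr (eval P) X (cc (zv ω h i)) l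
        simp only [eval_X, cc, eval_C] at h2
        simpa [cc] using h2
    have h2 := RingHom.congr_fun h1 (mp ω (j i))
    rw [eval_mp] at h2
    exact h2
  have hcr : ∀ i l, (cr X (cc (zv ω h i)) l : MvPolynomial (Fin 3) K).IsHomogeneous 1 := by
    intro i l
    exact IsHomogeneous.cr' (m := 1) (n := 0) (isHomogeneous_X K) (fun _ => isHomogeneous_C _ _) l
  refine ⟨_, ∏ i, G i, IsHomogeneous.prod Finset.univ G (fun _ => 1 * 10)
    (fun i _ => (mp_hom ω (j i)).aeval _ (hcr i)), ?_, ?_⟩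
  · apply Finset.prod_ne_zero_iff.2
    intro i _ h0
    obtain ⟨P, hP⟩ := exists_cr (zv_ne_zero ω h i) (ht i)
    apply hj i
    rw [← hP, ← hG, h0, map_zero]
  · intro P hP i h0
    rw [map_prod] at hP
    apply Finset.prod_ne_zero_iff.1 hP i (Finset.mem_univ i)
    rw [hG, h0, Pi.zero_apply]

lemma eval_pt_rep {ω h : K} {F : MvPolynomial (Fin 3) K} {n : ℕ} (hF : F.IsHomogeneous n)
    (i : Fin 21) : ∃ a : K, a ≠ 0 ∧ eval (pt ω h i).rep F = eval (zv ω h i) F * a ^ n := by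
  obtain ⟨a, ha0, ha⟩ := pt_rep ω h i
  exact ⟨a, ha0, by rw [← hom_eval_smul hF]; exact ev_congr ha⟩

lemma FP_mem_ZZ {ω h : K} (hw : ω^2+ω+1=0) (hh : 2 * h = 1) (P : ℙ K (Fin 3 → K)) :
    FP ω P.rep ∈ degPart (fatIdeal (ZZ ω h : Set (ℙ K (Fin 3 → K))) 9 P) 10 := by
  refine ⟨⟨?_, FP_mem ω P⟩, FP_hom ω P.rep⟩
  apply mem_of_eval (FP_hom ω P.rep)
  intro p hp
  obtain ⟨i, rfl⟩ := mem_ZZ.1 (Finset.mem_coe.1 hp)
  obtain ⟨a, -, ha⟩ := eval_pt_rep (h := h) (FP_hom ω P.rep) i
  rw [ha, eval_FP, inv_line ω h hw hh i _ (dot_cr_right _ _), zero_mul]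

lemma eval_zv_of_mem {ω h : K} {F : MvPolynomial (Fin 3) K} {n : ℕ} (hF : F.IsHomogeneous n)
    (hFZ : F ∈ idealOf (ZZ ω h : Set (ℙ K (Fin 3 → K)))) (i : Fin 21) :
    eval (zv ω h i) F = 0 := by
  obtain ⟨a, ha0, ha⟩ := eval_pt_rep (ω := ω) (h := h) hF i
  have h1 := eval_of_mem hFZ (p := pt ω h i) (Finset.mem_coe.2 (mem_ZZ.2 ⟨i, rfl⟩))
  rw [ha] at h1
  exact (mul_eq_zero.1 h1).resolve_right (pow_ne_zero n ha0)

lemma degPart_eq [IsAlgClosed K] {ω h : K} (hw : ω^2+ω+1=0) (hh : 2 * h = 1)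
    {P : ℙ K (Fin 3 → K)} (hP : Gen ω h P.rep) :
    degPart (fatIdeal (ZZ ω h : Set (ℙ K (Fin 3 → K))) 9 P) 10 =
      Submodule.span K {FP ω P.rep} := by
  apply le_antisymm
  · rintro F ⟨⟨h1, h2⟩, h3⟩
    obtain ⟨c, hc⟩ := unique hw hh hP h2 h3 (eval_zv_of_mem h3 h1)
    rw [Submodule.mem_span_singleton]
    exact ⟨c, by rw [hc, smul_eq_C_mul]⟩
  · rw [Submodule.span_singleton_le_iff_mem]
    exact FP_mem_ZZ hw hh P

lemma unexpected [IsAlgClosed K] {ω h : K} (hw : ω^2+ω+1=0) (hh : 2 * h = 1) :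
    HasIrreducibleUnexpectedCurve (ZZ ω h : Set (ℙ K (Fin 3 → K))) 10 9 := by
  obtain ⟨n, H, hH, hH0, hgen⟩ := exists_gen hw hh
  constructor
  · refine ⟨n, H, hH, hH0, fun P hP => ?_⟩
    have hG := hgen P.rep hP
    beta_reduce
    rw [degPart_eq hw hh hG, finrank_span_singleton (FP_ne_zero hw hh hG)]
    have h1 : Module.finrank K (degPart (idealOf (ZZ ω h : Set (ℙ K (Fin 3 → K)))) 10) ≤ 45 :=
      finrank_degPart hw hh inf_le_right fun F hF i => eval_zv_of_mem hF.2 hF.1 i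
    have h2 : (9 + 1).choose 2 = 45 := by decide
    rw [h2]
    apply max_lt
    · norm_num
    · have : (Module.finrank K (degPart (idealOf (ZZ ω h : Set (ℙ K (Fin 3 → K)))) 10) : ℤ) ≤ 45 := by
        exact_mod_cast h1
      push_cast
      linarith
  · refine ⟨n, H, hH, hH0, fun P hP => ?_⟩
    have hG := hgen P.rep hP
    beta_reduce
    rw [degPart_eq hw hh hG]
    have hI := FP_irr hw hh hG
    obtain ⟨e, he⟩ := ne_zero_iff.1 (FP_ne_zero hw hh hG)
    refine ⟨X e, ⟨FP ω P.rep, Submodule.mem_span_singleton_self _, by rwa [eval_X]⟩, ?_⟩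
    intro F hF hFe
    rw [eval_X] at hFe
    obtain ⟨c, rfl⟩ := Submodule.mem_span_singleton.1 hF
    have hc : c ≠ 0 := by
      rintro rfl
      simp at hFe
    rw [smul_eq_C_mul]
    have hu : IsUnit (C c : MvPolynomial (Fin 3) K) := IsUnit.map _ (isUnit_iff_ne_zero.2 hc)
    exact (irreducible_isUnit_mul hu).2 hI

lemma shares [IsAlgClosed K] {ω h : K} (hw : ω^2+ω+1=0) (hh : 2 * h = 1)
    {Z' : Set (ℙ K (Fin 3 → K))} (hZ : Shares (ZZ ω h : Set (ℙ K (Fin 3 → K))) Z' 10 9) :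
    Z' = ZZ ω h := by
  obtain ⟨hsub, -, n, H, hH, hH0, hHP⟩ := hZ
  apply Set.Subset.antisymm _ hsub
  intro z hz
  have h1 : ∀ P : ℙ K (Fin 3 → K), eval P.rep H ≠ 0 → dot z.rep (th ω (cr P.rep z.rep)) = 0 := by
    intro P hP
    have h2 := FP_mem_ZZ hw hh P
    rw [← hHP P hP] at h2
    rw [← eval_FP]
    exact eval_of_mem h2.1.1 hz
  let Q : MvPolynomial (Fin 3) K :=
    dot (cc z.rep) (fun j => aeval (fun l => cr X (cc z.rep) l) (tp ω j))
  have hQ : ∀ P : Fin 3 → K, eval P Q = dot z.rep (th ω (cr P z.rep)) := by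
    intro P
    have h1 : (eval P).comp
        (aeval (R := K) (fun l => cr X (cc z.rep) l : Fin 3 → MvPolynomial (Fin 3) K)).toRingHom
        = eval (cr P z.rep) := by
      apply MvPolynomial.ringHom_ext
      · intro r
        simp
      · intro l
        have h2 := map_cr (eval P) X (cc z.rep) l
        simp only [eval_X, cc, eval_C] at h2
        simpa [cc] using h2
    simp only [Q]
    rw [eval_cc]
    congr 1
    funext j
    rw [← eval_tp]
    exact RingHom.congr_fun h1 (tp ω j)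
  have h2 : H * Q = 0 := by
    apply MvPolynomial.funext
    intro P
    rw [map_mul, map_zero, hQ]
    by_cases hP0 : P = 0
    · have h3 : cr P z.rep = 0 := by
        rw [hP0]
        funext j
        fin_cases j <;> simp [cr]
      have h4 : dot z.rep (th ω (cr P z.rep)) = 0 := by
        rw [h3]
        simp [dot, th]
      rw [h4, mul_zero]
    · by_cases hHe : eval P H = 0
      · rw [hHe, zero_mul]
      · obtain ⟨a, ha⟩ := Projectivization.exists_smul_eq_mk_rep K P hP0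
        have h3 : ∀ j, (Projectivization.mk K P hP0).rep j = P j * a := by
          intro j
          rw [← ha, Pi.smul_apply, Units.smul_def, smul_eq_mul, mul_comm]
        have h4 : eval (Projectivization.mk K P hP0).rep H ≠ 0 := by
          rw [ev_congr h3, hom_eval_smul hH]
          exact mul_ne_zero hHe (pow_ne_zero n a.ne_zero)
        have h5 := h1 _ h4
        have h6 : cr (Projectivization.mk K P hP0).rep z.rep = fun j => cr P z.rep j * a := by
          funext j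
          fin_cases j <;> simp [cr, h3] <;> ring
        rw [h6] at h5
        have h7 : th ω (fun j => cr P z.rep j * a) = fun j => th ω (cr P z.rep) j * a ^ 9 :=
          _root_.funext fun j => th_smul ω a _ j
        rw [h7] at h5
        have h8 : dot z.rep (fun j => th ω (cr P z.rep) j * a ^ 9) =
            dot z.rep (th ω (cr P z.rep)) * a ^ 9 := by
          simp only [dot]
          ring
        rw [h8] at h5
        rw [(mul_eq_zero.1 h5).resolve_right (pow_ne_zero 9 a.ne_zero), mul_zero]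
  have h3 : Q = 0 := (mul_eq_zero.1 h2).resolve_left hH0
  have hinv : Inv ω z.rep := by
    intro t ht
    obtain ⟨P, rfl⟩ := exists_cr z.rep_nonzero ht
    rw [← hQ, h3, map_zero]
  obtain ⟨i, c, hc, hi⟩ := classify hw hh hinv z.rep_nonzero
  apply Finset.mem_coe.2
  rw [mem_ZZ]
  refine ⟨i, ?_⟩
  rw [← Projectivization.mk_rep z, pt, Projectivization.mk_eq_mk_iff']
  refine ⟨c⁻¹, ?_⟩
  funext j
  rw [Pi.smul_apply, hi, smul_eq_mul, inv_mul_cancel_left₀ hc]

end Main

/-- the counterexample -/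
theorem main (K : Type u) [Field K] [IsAlgClosed K] [CharZero K] :
    ∃ Z : Finset (ℙ K (Fin 3 → K)), Z.card = 21 ∧
      HasIrreducibleUnexpectedCurve (Z : Set (ℙ K (Fin 3 → K))) 10 9 ∧ ¬ DualFree Z ∧
      ∀ Z' : Finset (ℙ K (Fin 3 → K)), Shares (Z : Set (ℙ K (Fin 3 → K))) Z' 10 9 → Z' = Z := by
  obtain ⟨ω, hω⟩ := IsAlgClosed.exists_root (Polynomial.X ^ 2 + Polynomial.X + 1 : Polynomial K) (by
    have : (Polynomial.X ^ 2 + Polynomial.X + 1 : Polynomial K).degree = 2 := by compute_degree!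
    rw [this]
    decide)
  have hw : ω ^ 2 + ω + 1 = 0 := by simpa using hω
  have hh : 2 * (1 / 2 : K) = 1 := by norm_num
  refine ⟨ZZ ω (1 / 2), card_ZZ hw hh, unexpected hw hh, not_dualFree hw hh, fun Z' hZ' => ?_⟩
  exact Finset.coe_injective (shares hw hh hZ')

end Pool.Agent.H880.Unexp
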